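import Mathlib

set_option autoImplicit false

open Set Filter Topology Metric

namespace Pool.Agent.H366R3

/-- the slowly oscillating half-width -/
noncomputable def W (y : ℝ) : ℝ := 2 + Real.sin (Real.log (1 - Real.log y))

/-- the horizontally rescaled compressed domain -/
def U (ε : ℝ) : Set ℂ := {z | |ε * z.im| < 1 / 2 ∧ (|z.re| < 1 ∨ (z.im ≠ 0 ∧ |z.re| < W (ε * z.im)))}

lemma one_le_W (y : ℝ) : 1 ≤ W y := by
  have := Real.neg_one_le_sin (Real.log (1 - Real.log y))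
  rw [W]; linarith

lemma W_le (y : ℝ) : W y ≤ 3 := by
  have := Real.sin_le_one (Real.log (1 - Real.log y))
  rw [W]; linarith

lemma W_neg (y : ℝ) : W (-y) = W y := by
  rw [W, W, Real.log_neg_eq_log]

lemma W_cont {y : ℝ} (hy : y ≠ 0) (hy1 : |y| < 1) : ContinuousAt W y := by
  have h1 : Real.log y < 0 := by
    rw [← Real.log_abs]
    exact Real.log_neg (abs_pos.2 hy) hy1
  have h2 : ContinuousAt (fun y : ℝ => 1 - Real.log y) y :=
    continuousAt_const.sub (Real.continuousAt_log hy)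
  have h3 : ContinuousAt (fun y : ℝ => Real.log (1 - Real.log y)) y :=
    h2.log (by linarith)
  exact continuousAt_const.add (Real.continuous_sin.continuousAt.comp h3)

lemma U_open (ε : ℝ) (hε : ε ≠ 0) : IsOpen (U ε) := by
  rw [isOpen_iff_mem_nhds]
  rintro z ⟨h1, h2⟩
  have c1 : ∀ᶠ w : ℂ in 𝓝 z, |ε * w.im| < 1 / 2 := by
    have : ContinuousAt (fun w : ℂ => |ε * w.im|) z := by fun_prop
    exact this.eventually_lt continuousAt_const h1
  rcases h2 with h2 | ⟨h2, h3⟩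
  · have c2 : ∀ᶠ w : ℂ in 𝓝 z, |w.re| < 1 := by
      have : ContinuousAt (fun w : ℂ => |w.re|) z := by fun_prop
      exact this.eventually_lt continuousAt_const h2
    filter_upwards [c1, c2] with w hw1 hw2
    exact ⟨hw1, Or.inl hw2⟩
  · have c2 : ∀ᶠ w : ℂ in 𝓝 z, |w.re| < W (ε * w.im) := by
      have e1 : ContinuousAt (fun w : ℂ => |w.re|) z := by fun_prop
      have e2 : ContinuousAt (fun w : ℂ => W (ε * w.im)) z := by
        have e3 : ContinuousAt (fun w : ℂ => ε * w.im) z := by fun_prop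
        have e4 : ContinuousAt W (ε * z.im) := W_cont (mul_ne_zero hε h2) (by linarith)
        exact ContinuousAt.comp (f := fun w : ℂ => ε * w.im) e4 e3
      exact e1.eventually_lt e2 h3
    have c3 : ∀ᶠ w : ℂ in 𝓝 z, w.im ≠ 0 := by
      have : ContinuousAt (fun w : ℂ => w.im) z := by fun_prop
      exact this.eventually_ne h2
    filter_upwards [c1, c2, c3] with w hw1 hw2 hw3
    exact ⟨hw1, Or.inr ⟨hw3, hw2⟩⟩

lemma U_conj {ε : ℝ} {z : ℂ} (hz : z ∈ U ε) : (starRingEnd ℂ) z ∈ U ε := by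
  obtain ⟨h1, h2⟩ := hz
  refine ⟨?_, ?_⟩
  · simpa using h1
  · rcases h2 with h2 | ⟨h2, h3⟩
    · left; simpa using h2
    · right
      refine ⟨by simpa using h2, ?_⟩
      have : ε * ((starRingEnd ℂ) z).im = -(ε * z.im) := by simp
      rw [this, W_neg]
      simpa using h3

lemma U_strip3 {ε : ℝ} {z : ℂ} (hz : z ∈ U ε) : |z.re| < 3 := by
  obtain ⟨h1, h2⟩ := hz
  rcases h2 with h2 | ⟨h2, h3⟩
  · linarith
  · exact h3.trans_le (W_le _)

lemma U_real {ε x : ℝ} (hx : |x| < 1) : (x : ℂ) ∈ U ε := by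
  refine ⟨by simp, Or.inl (by simpa using hx)⟩

lemma real_U {ε x : ℝ} (h : (x : ℂ) ∈ U ε) : |x| < 1 := by
  obtain ⟨h1, h2⟩ := h
  rcases h2 with h2 | ⟨h2, h3⟩
  · simpa using h2
  · simp at h2

lemma zero_mem_U (ε : ℝ) : (0 : ℂ) ∈ U ε := by
  have := U_real (ε := ε) (x := 0) (by simp)
  simpa using this

lemma half_mem_U (ε : ℝ) : ((1 / 2 : ℝ) : ℂ) ∈ U ε := U_real (by rw [abs_of_pos] <;> norm_num)

lemma U_ne_univ (ε : ℝ) : U ε ≠ univ := by
  intro h
  have : ((3 : ℝ) : ℂ) ∈ U ε := h ▸ mem_univ _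
  have := U_strip3 this
  rw [Complex.ofReal_re, abs_of_pos (by norm_num)] at this
  linarith

/-- horizontal contraction, then vertical contraction -/
lemma U_scale {ε : ℝ} {z : ℂ} (hz : z ∈ U ε) {a b : ℝ} (ha : 0 ≤ a) (ha1 : a ≤ 1) (hb : 0 ≤ b)
    (hb1 : b ≤ 1) (hab : a = 0 ∨ b = 1) : (⟨a * z.re, b * z.im⟩ : ℂ) ∈ U ε := by
  obtain ⟨h1, h2⟩ := hz
  have hab' : |a * z.re| ≤ |z.re| := by
    rw [abs_mul, abs_of_nonneg ha]
    nlinarith [abs_nonneg z.re]
  refine ⟨?_, ?_⟩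
  · have : |ε * (b * z.im)| = b * |ε * z.im| := by
      rw [show ε * (b * z.im) = b * (ε * z.im) by ring, abs_mul, abs_of_nonneg hb]
    show |ε * (b * z.im)| < 1 / 2
    rw [this]
    nlinarith [abs_nonneg (ε * z.im)]
  · rcases hab with rfl | rfl
    · left; simp
    · rcases h2 with h2 | ⟨h2, h3⟩
      · left; exact hab'.trans_lt h2
      · right
        refine ⟨by simpa using h2, ?_⟩
        show |a * z.re| < W (ε * (1 * z.im))
        rw [one_mul]
        exact hab'.trans_lt h3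

lemma U_contractible (ε : ℝ) : ContractibleSpace (U ε) := by
  rw [contractible_iff_id_nullhomotopic]
  refine ⟨⟨0, zero_mem_U ε⟩, ⟨?_⟩⟩
  refine ⟨⟨fun p => ⟨⟨max (1 - 2 * (p.1 : ℝ)) 0 * (p.2 : ℂ).re,
    min 1 (2 - 2 * (p.1 : ℝ)) * (p.2 : ℂ).im⟩, ?_⟩, ?_⟩, ?_, ?_⟩
  · have h0 := p.1.2.1
    have h1 := p.1.2.2
    apply U_scale p.2.2
    · exact le_max_right _ _
    · apply max_le <;> linarith
    · apply le_min <;> linarith
    · exact min_le_left _ _
    · rcases le_total (p.1 : ℝ) (1 / 2) with h | h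
      · right; apply min_eq_left; linarith
      · left; apply max_eq_right; linarith
  · refine Continuous.subtype_mk ?_ _
    have : (fun p : unitInterval × U ε => (⟨max (1 - 2 * (p.1 : ℝ)) 0 * (p.2 : ℂ).re,
        min 1 (2 - 2 * (p.1 : ℝ)) * (p.2 : ℂ).im⟩ : ℂ)) =
        fun p => ((max (1 - 2 * (p.1 : ℝ)) 0 * (p.2 : ℂ).re : ℝ) : ℂ) +
          ((min 1 (2 - 2 * (p.1 : ℝ)) * (p.2 : ℂ).im : ℝ) : ℂ) * Complex.I := by
      funext p
      rw [Complex.mk_eq_add_mul_I]
    rw [this]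
    fun_prop
  · intro x
    apply Subtype.ext
    apply Complex.ext <;> simp
  · intro x
    apply Subtype.ext
    apply Complex.ext
    · have : max (1 - 2 * ((1 : unitInterval) : ℝ)) 0 = 0 := by
        apply max_eq_right; norm_num
      simp [this]
    · have : min 1 (2 - 2 * ((1 : unitInterval) : ℝ)) = 0 := by norm_num
      simp [this]

lemma U_sc (ε : ℝ) : IsSimplyConnected (U ε) := by
  have := U_contractible ε
  show SimplyConnectedSpace (U ε)
  infer_instance

end Pool.Agent.H366R3
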