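import Mathlib
import Pool.Agent.H366R3.Dom
import Pool.Agent.Helper859.Stk.Riemann

set_option autoImplicit false

open Set Filter Topology Metric
open scoped ComplexConjugate

namespace Pool.Agent.H366R3

open Pool.Agent.Helper859.Stk.Riemann

/-- rigidity in the Schwarz lemma -/
lemma schwarz_eq {F : ℂ → ℂ} (hd : DifferentiableOn ℂ F (ball 0 1))
    (hm : MapsTo F (ball 0 1) (closedBall 0 1)) (h0 : F 0 = 0) {w : ℂ} (hw : w ∈ ball (0 : ℂ) 1)
    (hw0 : w ≠ 0) (he : ‖F w‖ = ‖w‖) : ∃ c : ℂ, ‖c‖ = 1 ∧ ∀ z ∈ ball (0 : ℂ) 1, F z = c * z := by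
  have h1 : ‖dslope F 0 w‖ = 1 / 1 := by
    rw [dslope_of_ne _ hw0, slope_def_module, h0, norm_smul, sub_zero, sub_zero, norm_inv, he]
    rw [inv_mul_cancel₀ (norm_ne_zero_iff.2 hw0)]; norm_num
  obtain ⟨C, hC, hE⟩ := Complex.affine_of_mapsTo_ball_of_exists_norm_dslope_eq_div' hd
    (by rw [h0]; exact hm) ⟨w, hw, h1⟩
  refine ⟨C, by rw [hC]; norm_num, fun z hz => ?_⟩
  have := hE hz
  simp only [h0, sub_zero, zero_add, smul_eq_mul] at this
  rw [this, mul_comm]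

lemma schwarz_le {F : ℂ → ℂ} (hd : DifferentiableOn ℂ F (ball 0 1))
    (hm : MapsTo F (ball 0 1) (closedBall 0 1)) (h0 : F 0 = 0) {w : ℂ} (hw : w ∈ ball (0 : ℂ) 1) :
    ‖F w‖ ≤ ‖w‖ :=
  Complex.norm_le_norm_of_mapsTo_ball hd hm h0 (by simpa using hw)

/-- conformal parametrization of the domain `U ε` normalized at the points `0` and `1/2` -/
structure RM (ε : ℝ) (ψ g : ℂ → ℂ) (r : ℝ) : Prop where
  dψ : DifferentiableOn ℂ ψ (U ε)
  dg : DifferentiableOn ℂ g (ball 0 1)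
  mψ : MapsTo ψ (U ε) (ball 0 1)
  mg : MapsTo g (ball 0 1) (U ε)
  gψ : ∀ z ∈ U ε, g (ψ z) = z
  ψg : ∀ w ∈ ball (0 : ℂ) 1, ψ (g w) = w
  g0 : g 0 = 0
  r0 : 0 < r
  ψh : ψ ((1 / 2 : ℝ) : ℂ) = (r : ℂ)

lemma RM.ψ0 {ε : ℝ} {ψ g : ℂ → ℂ} {r : ℝ} (h : RM ε ψ g r) : ψ 0 = 0 := by
  have := h.ψg 0 (mem_ball_self one_pos)
  rwa [h.g0] at this

lemma RM.r1 {ε : ℝ} {ψ g : ℂ → ℂ} {r : ℝ} (h : RM ε ψ g r) : r < 1 := by
  have := h.mψ (half_mem_U ε)
  rw [h.ψh, mem_ball_zero_iff, Complex.norm_real, Real.norm_eq_abs, abs_of_pos h.r0] at this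
  exact this

lemma RM.gr {ε : ℝ} {ψ g : ℂ → ℂ} {r : ℝ} (h : RM ε ψ g r) : g (r : ℂ) = ((1 / 2 : ℝ) : ℂ) := by
  have := h.gψ _ (half_mem_U ε)
  rwa [h.ψh] at this

lemma exists_RM (ε : ℝ) (hε : ε ≠ 0) : ∃ (ψ g : ℂ → ℂ) (r : ℝ), RM ε ψ g r := by
  obtain ⟨g, φ, h1, h2, -, h4, h5, h6, h7, h8⟩ := riemann_inv (U_open ε hε) (U_sc ε) (U_ne_univ ε)
    (zero_mem_U ε)
  set p := φ ((1 / 2 : ℝ) : ℂ) with hp
  have hp0 : p ≠ 0 := by
    intro h0
    have e1 := h7 _ (half_mem_U ε)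
    rw [← hp, h0, h4] at e1
    norm_num at e1
  have hpn : ‖p‖ ≠ 0 := norm_ne_zero_iff.2 hp0
  set c : ℂ := conj p / ‖p‖ with hc
  have hcn : ‖c‖ = 1 := by
    rw [hc, norm_div, Complex.norm_conj, Complex.norm_real, norm_norm, div_self hpn]
  have hc0 : c ≠ 0 := norm_ne_zero_iff.1 (by rw [hcn]; exact one_ne_zero)
  have hball : ∀ w ∈ ball (0 : ℂ) 1, w / c ∈ ball (0 : ℂ) 1 := by
    intro w hw
    rw [mem_ball_zero_iff] at hw ⊢
    rw [norm_div, hcn, div_one]; exact hw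
  refine ⟨fun z => c * φ z, fun w => g (w / c), ‖p‖, ?_, ?_, ?_, ?_, ?_, ?_, ?_, ?_, ?_⟩
  · exact h5.const_mul c
  · exact h1.comp (by fun_prop) hball
  · intro z hz
    have := h6 hz
    rw [mem_ball_zero_iff] at this ⊢
    rw [norm_mul, hcn, one_mul]; exact this
  · intro w hw
    exact h2.mapsTo (hball w hw)
  · intro z hz
    show g (c * φ z / c) = z
    rw [mul_div_cancel_left₀ _ hc0]; exact h7 z hz
  · intro w hw
    show c * φ (g (w / c)) = w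
    rw [h8 _ (hball w hw)]; field_simp
  · show g (0 / c) = 0
    rw [zero_div, h4]
  · exact norm_pos_iff.2 hp0
  · show c * p = ‖p‖
    rw [hc, div_mul_eq_mul_div, mul_comm, Complex.mul_conj, Complex.normSq_eq_norm_sq]
    push_cast
    have : (‖p‖ : ℂ) ≠ 0 := by exact_mod_cast hpn
    field_simp

/-- extremality of the conformal map among maps of `U ε` to the disk -/
lemma RM.upper {ε : ℝ} {ψ g : ℂ → ℂ} {r : ℝ} (h : RM ε ψ g r) {k : ℂ → ℂ}
    (hk : DifferentiableOn ℂ k (U ε)) (hm : MapsTo k (U ε) (closedBall 0 1)) (h0 : k 0 = 0) :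
    ‖k ((1 / 2 : ℝ) : ℂ)‖ ≤ r := by
  have hr : (r : ℂ) ∈ ball (0 : ℂ) 1 := by
    rw [mem_ball_zero_iff, Complex.norm_real, Real.norm_eq_abs, abs_of_pos h.r0]; exact h.r1
  have := schwarz_le (F := fun w => k (g w)) (hk.comp h.dg h.mg)
    (fun w hw => hm (h.mg hw)) (by show k (g 0) = 0; rw [h.g0, h0]) hr
  rw [h.gr, Complex.norm_real, Real.norm_eq_abs, abs_of_pos h.r0] at this
  exact this

/-- extremality of the inverse map among maps of the disk to `U ε` -/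
lemma RM.lower {ε : ℝ} {ψ g : ℂ → ℂ} {r : ℝ} (h : RM ε ψ g r) {k : ℂ → ℂ}
    (hk : DifferentiableOn ℂ k (ball 0 1)) (hm : MapsTo k (ball 0 1) (U ε)) (h0 : k 0 = 0)
    {w : ℂ} (hw : w ∈ ball (0 : ℂ) 1) (hkw : k w = ((1 / 2 : ℝ) : ℂ)) : r ≤ ‖w‖ := by
  have := schwarz_le (F := fun w => ψ (k w)) (h.dψ.comp hk hm)
    (fun w hw => ball_subset_closedBall (h.mψ (hm hw))) (by show ψ (k 0) = 0; rw [h0, h.ψ0]) hw
  rw [hkw, h.ψh, Complex.norm_real, Real.norm_eq_abs, abs_of_pos h.r0] at this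
  exact this

/-- the value `r` is determined by `ε` -/
lemma RM.unique {ε : ℝ} {ψ g ψ' g' : ℂ → ℂ} {r r' : ℝ} (h : RM ε ψ g r) (h' : RM ε ψ' g' r') :
    r ≤ r' := by
  have := h'.upper h.dψ (fun z hz => ball_subset_closedBall (h.mψ hz)) h.ψ0
  rw [h.ψh, Complex.norm_real, Real.norm_eq_abs, abs_of_pos h.r0] at this
  exact this

/-- the conformal map commutes with complex conjugation -/
lemma RM.conj {ε : ℝ} (hε : ε ≠ 0) {ψ g : ℂ → ℂ} {r : ℝ} (h : RM ε ψ g r) {z : ℂ}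
    (hz : z ∈ U ε) : ψ (conj z) = conj (ψ z) := by
  have hr : (r : ℂ) ∈ ball (0 : ℂ) 1 := by
    rw [mem_ball_zero_iff, Complex.norm_real, Real.norm_eq_abs, abs_of_pos h.r0]; exact h.r1
  -- reflected map
  have hdr : DifferentiableOn ℂ (fun z => conj (ψ (conj z))) (U ε) := by
    intro z hz
    have h1 : DifferentiableAt ℂ ψ (conj z) :=
      h.dψ.differentiableAt ((U_open ε hε).mem_nhds (U_conj hz))
    have h2 := h1.star_star
    simp only [RCLike.star_def] at h2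
    have h3 := h1.conj_conj
    simp only [Complex.conj_conj] at h3
    exact h3.differentiableWithinAt
  have hd : DifferentiableOn ℂ (fun w => conj (ψ (conj (g w)))) (ball 0 1) :=
    hdr.comp h.dg h.mg
  have hm : MapsTo (fun w => conj (ψ (conj (g w)))) (ball 0 1) (closedBall 0 1) := by
    intro w hw
    have := h.mψ (U_conj (h.mg hw))
    rw [mem_ball_zero_iff] at this
    rw [mem_closedBall_zero_iff, Complex.norm_conj]
    exact this.le
  have h0 : (fun w => conj (ψ (conj (g w)))) 0 = 0 := by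
    simp [h.g0, h.ψ0]
  have hgr : conj (ψ (conj (g r))) = r := by
    rw [h.gr, Complex.conj_ofReal, h.ψh, Complex.conj_ofReal]
  have hr0 : (r : ℂ) ≠ 0 := by exact_mod_cast h.r0.ne'
  obtain ⟨c, -, hE⟩ := schwarz_eq hd hm h0 hr hr0 (by rw [hgr])
  have hc : c = 1 := by
    have := hE _ hr
    rw [hgr] at this
    have h5 : (1 - c) * (r : ℂ) = 0 := by linear_combination this
    rcases mul_eq_zero.1 h5 with h6 | h6
    · linear_combination -h6
    · exact absurd h6 hr0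
  have h1 := hE _ (h.mψ hz)
  rw [hc, one_mul] at h1
  rw [h.gψ z hz] at h1
  rw [← h1, Complex.conj_conj]

end Pool.Agent.H366R3
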