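import Mathlib

set_option autoImplicit false

open Set Filter Topology Metric
open scoped ComplexConjugate

namespace Pool.Agent.H366R3

/-- exponential from the strip of half-width `a` to the right half plane -/
noncomputable def ex (a : ℝ) (z : ℂ) : ℂ := Complex.exp (Complex.I * (Real.pi / (2 * a) : ℝ) * z)

/-- conformal map of the strip of half-width `a` onto the disk -/
noncomputable def T (a : ℝ) (z : ℂ) : ℂ := -Complex.I * ((ex a z - 1) / (ex a z + 1))

/-- Cayley transform -/
noncomputable def cay (w : ℂ) : ℂ := (1 + Complex.I * w) / (1 - Complex.I * w)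

/-- inverse of `T a` -/
noncomputable def Ti (a : ℝ) (w : ℂ) : ℂ := (2 * a / Real.pi : ℝ) * (-Complex.I * Complex.log (cay w))

lemma ex_re {a : ℝ} {z : ℂ} (ha : 0 < a) (hz : |z.re| < a) : 0 < (ex a z).re := by
  rw [ex, Complex.exp_re]
  have h1 : (Complex.I * (Real.pi / (2 * a) : ℝ) * z).im = Real.pi / (2 * a) * z.re := by
    simp only [Complex.mul_im, Complex.mul_re, Complex.I_re, Complex.I_im, Complex.ofReal_re, Complex.ofReal_im]; ring
  rw [h1]
  apply mul_pos (Real.exp_pos _)
  apply Real.cos_pos_of_mem_Ioo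
  have hp := Real.pi_pos
  have h2 : |Real.pi / (2 * a) * z.re| < Real.pi / 2 := by
    rw [abs_mul, abs_of_pos (by positivity : (0 : ℝ) < Real.pi / (2 * a))]
    calc Real.pi / (2 * a) * |z.re| < Real.pi / (2 * a) * a := by gcongr
      _ = Real.pi / 2 := by field_simp
  exact abs_lt.1 h2

lemma norm_lt_of_re {E : ℂ} (h : 0 < E.re) : ‖-Complex.I * ((E - 1) / (E + 1))‖ < 1 := by
  have h1 : ‖E - 1‖ ^ 2 < ‖E + 1‖ ^ 2 := by
    rw [← Complex.normSq_eq_norm_sq, ← Complex.normSq_eq_norm_sq, Complex.normSq_apply,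
      Complex.normSq_apply]
    simp
    nlinarith
  have h2 : ‖E - 1‖ < ‖E + 1‖ := lt_of_pow_lt_pow_left₀ 2 (norm_nonneg _) h1
  rw [norm_mul, norm_neg, Complex.norm_I, one_mul, norm_div, div_lt_one]
  · exact h2
  · exact lt_of_le_of_lt (norm_nonneg _) h2

lemma T_norm {a : ℝ} {z : ℂ} (ha : 0 < a) (hz : |z.re| < a) : ‖T a z‖ < 1 :=
  norm_lt_of_re (ex_re ha hz)

lemma ex_add_one_ne {a : ℝ} {z : ℂ} (h : 0 < (ex a z).re) : ex a z + 1 ≠ 0 := by
  intro h0
  have := congrArg Complex.re h0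
  simp at this
  linarith

lemma ex_diff (a : ℝ) : Differentiable ℂ (ex a) := by
  unfold ex; fun_prop

lemma T_diffAt {a : ℝ} {z : ℂ} (h : ex a z + 1 ≠ 0) : DifferentiableAt ℂ (T a) z := by
  unfold T
  exact (((ex_diff a z).sub_const 1).div ((ex_diff a z).add_const 1) h).const_mul _

lemma T_diffOn {a : ℝ} (ha : 0 < a) : DifferentiableOn ℂ (T a) {z | |z.re| < a} :=
  fun _ hz => (T_diffAt (ex_add_one_ne (ex_re ha hz))).differentiableWithinAt

lemma cay_den {w : ℂ} (hw : ‖w‖ < 1) : 1 - Complex.I * w ≠ 0 := by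
  intro h
  have h1 : Complex.I * w = 1 := by linear_combination -h
  have h2 := congrArg norm h1
  rw [norm_mul, Complex.norm_I, one_mul, norm_one] at h2
  linarith

lemma cay_re {w : ℂ} (hw : ‖w‖ < 1) : 0 < (cay w).re := by
  have hd := cay_den hw
  have h1 : (cay w).re = (1 - ‖w‖ ^ 2) / Complex.normSq (1 - Complex.I * w) := by
    rw [cay, Complex.div_re, ← add_div, ← Complex.normSq_eq_norm_sq, Complex.normSq_apply w]
    congr 1
    simp
    ring
  rw [h1]
  have h2 : 0 < Complex.normSq (1 - Complex.I * w) := Complex.normSq_pos.2 hd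
  have h3 : 0 < 1 - ‖w‖ ^ 2 := by nlinarith [norm_nonneg w]
  positivity

lemma cay_diffOn : DifferentiableOn ℂ cay (ball 0 1) := by
  intro w hw
  have hw' : ‖w‖ < 1 := by simpa using hw
  unfold cay
  have h1 : DifferentiableAt ℂ (fun w : ℂ => 1 + Complex.I * w) w := by fun_prop
  have h2 : DifferentiableAt ℂ (fun w : ℂ => 1 - Complex.I * w) w := by fun_prop
  exact (h1.div h2 (cay_den hw')).differentiableWithinAt

lemma Ti_diffOn (a : ℝ) : DifferentiableOn ℂ (Ti a) (ball 0 1) := by
  intro w hw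
  have hw' : ‖w‖ < 1 := by simpa using hw
  have h1 := (cay_diffOn w hw).clog (Or.inl (cay_re hw'))
  unfold Ti
  exact (h1.const_mul (-Complex.I)).const_mul _

lemma Ti_re {a : ℝ} (ha : 0 < a) {w : ℂ} (hw : ‖w‖ < 1) : |(Ti a w).re| < a := by
  have h1 : (Ti a w).re = (2 * a / Real.pi) * (cay w).arg := by
    rw [Ti, Complex.re_ofReal_mul]
    congr 1
    simp [Complex.log_im]
  have h2 : |(cay w).arg| < Real.pi / 2 :=
    Complex.abs_arg_lt_pi_div_two_iff.2 (Or.inl (cay_re hw))
  have hp := Real.pi_pos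
  rw [h1, abs_mul, abs_of_pos (by positivity : (0 : ℝ) < 2 * a / Real.pi)]
  calc 2 * a / Real.pi * |(cay w).arg| < 2 * a / Real.pi * (Real.pi / 2) := by gcongr
    _ = a := by field_simp

lemma T_Ti {a : ℝ} (ha : 0 < a) {w : ℂ} (hw : ‖w‖ < 1) : T a (Ti a w) = w := by
  have hc : cay w ≠ 0 := by
    intro h
    have := cay_re hw
    rw [h] at this
    simp at this
  have hp := Real.pi_pos
  have h1 : ex a (Ti a w) = cay w := by
    rw [ex, Ti]
    have : Complex.I * (Real.pi / (2 * a) : ℝ) * ((2 * a / Real.pi : ℝ) *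
        (-Complex.I * Complex.log (cay w))) = Complex.log (cay w) := by
      have e : ((Real.pi / (2 * a) : ℝ) : ℂ) * ((2 * a / Real.pi : ℝ) : ℂ) = 1 := by
        rw [← Complex.ofReal_mul]
        norm_cast
        field_simp
      calc _ = -(Complex.I * Complex.I) * (((Real.pi / (2 * a) : ℝ) : ℂ) * ((2 * a / Real.pi : ℝ) : ℂ)) *
            Complex.log (cay w) := by ring
        _ = _ := by rw [e, Complex.I_mul_I]; ring
    rw [this, Complex.exp_log hc]
  have hd := cay_den hw
  rw [T, h1]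
  have e1 : cay w - 1 = 2 * Complex.I * w / (1 - Complex.I * w) := by
    rw [cay]; field_simp; ring
  have e2 : cay w + 1 = 2 / (1 - Complex.I * w) := by
    rw [cay]; field_simp; ring
  rw [e1, e2]
  have e3 : (2 * Complex.I * w / (1 - Complex.I * w)) / (2 / (1 - Complex.I * w)) = Complex.I * w := by
    field_simp
  rw [e3]
  calc -Complex.I * (Complex.I * w) = -(Complex.I * Complex.I) * w := by ring
    _ = w := by rw [Complex.I_mul_I]; ring

lemma Ti_T {a : ℝ} (ha : 0 < a) {z : ℂ} (hz : |z.re| < a) : Ti a (T a z) = z := by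
  have hE := ex_re ha hz
  have hE1 := ex_add_one_ne hE
  have hp := Real.pi_pos
  have h1 : Complex.I * T a z = (ex a z - 1) / (ex a z + 1) := by
    rw [T]
    calc Complex.I * (-Complex.I * ((ex a z - 1) / (ex a z + 1))) =
        -(Complex.I * Complex.I) * ((ex a z - 1) / (ex a z + 1)) := by ring
      _ = _ := by rw [Complex.I_mul_I]; ring
  have h2 : cay (T a z) = ex a z := by
    rw [cay, h1]
    have e1 : 1 + (ex a z - 1) / (ex a z + 1) = 2 * ex a z / (ex a z + 1) := by
      field_simp; ring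
    have e2 : 1 - (ex a z - 1) / (ex a z + 1) = 2 / (ex a z + 1) := by
      field_simp; ring
    rw [e1, e2]
    field_simp
  rw [Ti, h2, ex]
  have him : (Complex.I * (Real.pi / (2 * a) : ℝ) * z).im = Real.pi / (2 * a) * z.re := by
    simp only [Complex.mul_im, Complex.mul_re, Complex.I_re, Complex.I_im, Complex.ofReal_re, Complex.ofReal_im]; ring
  have h3 : |Real.pi / (2 * a) * z.re| < Real.pi / 2 := by
    rw [abs_mul, abs_of_pos (by positivity : (0 : ℝ) < Real.pi / (2 * a))]
    calc Real.pi / (2 * a) * |z.re| < Real.pi / (2 * a) * a := by gcongr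
      _ = Real.pi / 2 := by field_simp
  have h4 := abs_lt.1 h3
  rw [Complex.log_exp (by rw [him]; linarith) (by rw [him]; linarith)]
  have e : ((2 * a / Real.pi : ℝ) : ℂ) * ((Real.pi / (2 * a) : ℝ) : ℂ) = 1 := by
    rw [← Complex.ofReal_mul]
    norm_cast
    field_simp
  calc ((2 * a / Real.pi : ℝ) : ℂ) * (-Complex.I * (Complex.I * ((Real.pi / (2 * a) : ℝ) : ℂ) * z)) =
      -(Complex.I * Complex.I) * (((2 * a / Real.pi : ℝ) : ℂ) * ((Real.pi / (2 * a) : ℝ) : ℂ)) * z := by
        ring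
    _ = z := by rw [e, Complex.I_mul_I]; ring

lemma T_zero (a : ℝ) : T a 0 = 0 := by simp [T, ex]

lemma Ti_zero (a : ℝ) : Ti a 0 = 0 := by simp [Ti, cay]

/-- the map `T 1` has modulus larger than one at `2 + i` -/
lemma T_two_I : 1 < ‖T 1 (2 + Complex.I)‖ ∧ ex 1 (2 + Complex.I) + 1 ≠ 0 := by
  have h1 : ex 1 (2 + Complex.I) = -(Real.exp (-(Real.pi / 2)) : ℝ) := by
    rw [ex]
    have : Complex.I * (Real.pi / (2 * 1) : ℝ) * (2 + Complex.I) =
        Real.pi * Complex.I + ((-(Real.pi / 2) : ℝ) : ℂ) := by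
      push_cast
      ring_nf
      rw [Complex.I_sq]; ring
    rw [this, Complex.exp_add, Complex.exp_pi_mul_I, ← Complex.ofReal_exp]
    ring
  set q := Real.exp (-(Real.pi / 2)) with hq
  have hq0 : 0 < q := Real.exp_pos _
  have hq1 : q < 1 := by
    rw [hq]; apply Real.exp_lt_one_iff.2 ; have := Real.pi_pos; linarith
  have e1 : (-(q : ℂ) - 1) = ((-(q + 1) : ℝ) : ℂ) := by push_cast; ring
  have e2 : (-(q : ℂ) + 1) = (((1 - q) : ℝ) : ℂ) := by push_cast; ring
  constructor
  · rw [T, h1, e1, e2, norm_mul, norm_neg, Complex.norm_I, one_mul, norm_div, Complex.norm_real,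
      Complex.norm_real, Real.norm_eq_abs, Real.norm_eq_abs, abs_neg, abs_of_pos (by linarith),
      abs_of_pos (by linarith), lt_div_iff₀ (by linarith)]
    linarith
  · rw [h1, e2]
    intro h
    have : (1 - q) = 0 := by exact_mod_cast h
    linarith

lemma ex_im_pos {a : ℝ} (ha : 0 < a) {z : ℂ} (hz : 0 < z.im) : ex a z + 1 ≠ 0 := by
  intro h
  have h1 : ‖ex a z‖ = 1 := by
    have : ex a z = -1 := by linear_combination h
    rw [this, norm_neg, norm_one]
  rw [ex, Complex.norm_exp] at h1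
  have h2 : (Complex.I * (Real.pi / (2 * a) : ℝ) * z).re = -(Real.pi / (2 * a) * z.im) := by
    simp only [Complex.mul_im, Complex.mul_re, Complex.I_re, Complex.I_im, Complex.ofReal_re, Complex.ofReal_im]; ring
  rw [h2, Real.exp_eq_one_iff] at h1
  have hp := Real.pi_pos
  have : 0 < Real.pi / (2 * a) * z.im := by positivity
  linarith

end Pool.Agent.H366R3
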