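import Mathlib
import Pool.Agent.H366R3.Riem
import Pool.Agent.H366R3.Strip

set_option autoImplicit false

open Set Filter Topology Metric
open scoped ComplexConjugate

namespace Pool.Agent.H366R3

open Pool.Agent.Helper859.Stk.Riemann

/-- local version of convergence of bounded holomorphic functions -/
lemma local_limit {ι : Type*} {l : Filter ι} [l.NeBot] {F : ι → ℂ → ℂ} {f : ℂ → ℂ} {B : Set ℂ}
    (hB : IsOpen B) (hloc : ∀ᶠ i in l, DifferentiableOn ℂ (F i) B ∧ ∀ w ∈ B, ‖F i w‖ ≤ 1)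
    (hp : ∀ z ∈ B, Tendsto (fun i => F i z) l (𝓝 (f z))) :
    DifferentiableOn ℂ f B ∧
      ∀ z ∈ B, ∀ u : ι → ℂ, Tendsto u l (𝓝 z) → Tendsto (fun i => F i (u i)) l (𝓝 (f z)) := by
  classical
  let F' : ι → ℂ → ℂ := fun i =>
    if DifferentiableOn ℂ (F i) B ∧ ∀ w ∈ B, ‖F i w‖ ≤ 1 then F i else fun _ => 0
  have hd : ∀ i, DifferentiableOn ℂ (F' i) B := by
    intro i
    by_cases h : DifferentiableOn ℂ (F i) B ∧ ∀ w ∈ B, ‖F i w‖ ≤ 1
    · simp only [F', if_pos h]; exact h.1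
    · simp only [F', if_neg h]; exact differentiableOn_const _
  have hb : ∀ i, ∀ z ∈ B, ‖F' i z‖ ≤ 1 := by
    intro i z hz
    by_cases h : DifferentiableOn ℂ (F i) B ∧ ∀ w ∈ B, ‖F i w‖ ≤ 1
    · simp only [F', if_pos h]; exact h.2 z hz
    · simp only [F', if_neg h]; simp
  have heq : ∀ᶠ i in l, F' i = F i := by
    filter_upwards [hloc] with i hi
    simp only [F', if_pos hi]
  have hp' : ∀ z ∈ B, Tendsto (fun i => F' i z) l (𝓝 (f z)) := by
    intro z hz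
    refine (hp z hz).congr' ?_
    filter_upwards [heq] with i hi
    rw [hi]
  have htlu := tlu_of_pointwise hB hd hb hp'
  have hfd : DifferentiableOn ℂ f B := htlu.differentiableOn (Eventually.of_forall hd) hB
  refine ⟨hfd, ?_⟩
  intro z hz u hu
  have h1 := htlu.tendsto_comp (hfd.continuousOn z hz) hz
    (tendsto_nhdsWithin_iff.2 ⟨hu, hu.eventually (hB.mem_nhds hz)⟩)
  refine h1.congr' ?_
  filter_upwards [heq] with i hi
  rw [hi]

/-- existence of limits of holomorphic functions with values in the closed disk, along an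
ultrafilter, on a kernel of the domains -/
lemma up_limit {ι : Type*} (l : Ultrafilter ι) {V : Set ℂ} (hVo : IsOpen V) {D : ι → Set ℂ}
    {F : ι → ℂ → ℂ}
    (hD : ∀ i, DifferentiableOn ℂ (F i) (D i)) (hm : ∀ i, MapsTo (F i) (D i) (closedBall 0 1))
    (hV : ∀ z ∈ V, ∀ᶠ p : ι × ℂ in (l : Filter ι) ×ˢ 𝓝 z, p.2 ∈ D p.1) :
    ∃ f : ℂ → ℂ, DifferentiableOn ℂ f V ∧ MapsTo f V (closedBall 0 1) ∧
      ∀ z ∈ V, ∀ u : ι → ℂ, Tendsto u l (𝓝 z) → Tendsto (fun i => F i (u i)) l (𝓝 (f z)) := by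
  have hballs : ∀ z ∈ V, ∃ B : Set ℂ, IsOpen B ∧ z ∈ B ∧ B ⊆ V ∧ ∀ᶠ i in (l : Filter ι), B ⊆ D i := by
    intro z hz
    obtain ⟨pa, ha, pb, hb, hab⟩ := Filter.eventually_prod_iff.1 (hV z hz)
    obtain ⟨B, hB1, hB2, hB3⟩ := _root_.mem_nhds_iff.1 (Filter.inter_mem hb (hVo.mem_nhds hz))
    refine ⟨B, hB2, hB3, fun w hw => (hB1 hw).2, ?_⟩
    filter_upwards [ha] with i hi w hw
    exact hab hi (hB1 hw).1
  have hex : ∀ z, ∃ y : ℂ, z ∈ V → y ∈ closedBall (0 : ℂ) 1 ∧ Tendsto (fun i => F i z) l (𝓝 y) := by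
    intro z
    by_cases hz : z ∈ V
    · obtain ⟨B, -, hzB, -, hBD⟩ := hballs z hz
      have h1 : (l.map (fun i => F i z) : Filter ℂ) ≤ 𝓟 (closedBall (0 : ℂ) 1) := by
        rw [le_principal_iff, Ultrafilter.mem_coe, Ultrafilter.mem_map]
        show ∀ᶠ i in (l : Filter ι), F i z ∈ closedBall (0 : ℂ) 1
        filter_upwards [hBD] with i hi
        exact hm i (hi hzB)
      obtain ⟨y, hy, hy2⟩ := (isCompact_closedBall (0 : ℂ) 1).ultrafilter_le_nhds _ h1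
      exact ⟨y, fun _ => ⟨hy, hy2⟩⟩
    · exact ⟨0, fun h => absurd h hz⟩
  choose f hf using hex
  have hloc : ∀ z ∈ V, ∃ B : Set ℂ, IsOpen B ∧ z ∈ B ∧ DifferentiableOn ℂ f B ∧
      ∀ z ∈ B, ∀ u : ι → ℂ, Tendsto u l (𝓝 z) → Tendsto (fun i => F i (u i)) l (𝓝 (f z)) := by
    intro z hz
    obtain ⟨B, hBo, hzB, hBV, hBD⟩ := hballs z hz
    refine ⟨B, hBo, hzB, ?_⟩
    apply local_limit hBo
    · filter_upwards [hBD] with i hi
      refine ⟨(hD i).mono hi, fun w hw => ?_⟩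
      simpa using hm i (hi hw)
    · intro w hw
      exact (hf w (hBV hw)).2
  refine ⟨f, ?_, fun z hz => (hf z hz).1, ?_⟩
  · intro z hz
    obtain ⟨B, hBo, hzB, h1, -⟩ := hloc z hz
    exact (h1.differentiableAt (hBo.mem_nhds hzB)).differentiableWithinAt
  · intro z hz
    obtain ⟨B, hBo, hzB, -, h2⟩ := hloc z hz
    exact h2 z hzB

/-- limits of maps of the disk into the strip of half-width three -/
lemma low_limit {ι : Type*} (l : Ultrafilter ι) {k : ι → ℂ → ℂ} {ρ : ι → ℝ} {R : ℝ}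
    (hd : ∀ i, DifferentiableOn ℂ (k i) (ball 0 1)) (hm : ∀ i, ∀ w ∈ ball (0 : ℂ) 1, |(k i w).re| < 3)
    (h0 : ∀ i, k i 0 = 0) (hρ : ∀ i, k i (ρ i) = ((1 / 2 : ℝ) : ℂ)) (hρ1 : ∀ i, |ρ i| < 1)
    (hR : Tendsto ρ l (𝓝 R)) (hR1 : |R| < 1) :
    ∃ g : ℂ → ℂ, DifferentiableOn ℂ g (ball 0 1) ∧
      (∀ w ∈ ball (0 : ℂ) 1, Tendsto (fun i => k i w) l (𝓝 (g w))) ∧ g 0 = 0 ∧
      g R = ((1 / 2 : ℝ) : ℂ) ∧ IsOpen (g '' ball 0 1) := by
  have h3 : (0 : ℝ) < 3 := by norm_num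
  have hball : ∀ x : ℝ, |x| < 1 → (x : ℂ) ∈ ball (0 : ℂ) 1 := by
    intro x hx
    rw [mem_ball_zero_iff, Complex.norm_real, Real.norm_eq_abs]; exact hx
  have hzero : (0 : ℂ) ∈ ball (0 : ℂ) 1 := mem_ball_self one_pos
  obtain ⟨f, hf1, hf2, hf3⟩ := up_limit l (V := ball 0 1) isOpen_ball (D := fun _ => ball 0 1)
    (F := fun i w => T 3 (k i w))
    (fun i => (T_diffOn h3).comp (hd i) (fun w hw => hm i w hw))
    (fun i w hw => by
      have := T_norm h3 (hm i w hw)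
      rw [mem_closedBall_zero_iff]; exact this.le)
    (fun z hz => (tendsto_snd.eventually (isOpen_ball.mem_nhds hz)))
  have hf0 : f 0 = 0 := by
    have h1 := hf3 0 hzero (fun _ => 0) tendsto_const_nhds
    have h2 : (fun i => T 3 (k i ((fun _ => 0) i))) = fun _ => (0 : ℂ) := by
      funext i
      show T 3 (k i 0) = 0
      rw [h0 i, T_zero]
    rw [h2] at h1
    exact tendsto_nhds_unique h1 tendsto_const_nhds
  have hflt : ∀ w ∈ ball (0 : ℂ) 1, ‖f w‖ < 1 := by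
    intro w hw
    have := schwarz_le hf1 hf2 hf0 hw
    rw [mem_ball_zero_iff] at hw
    linarith
  have hfb : MapsTo f (ball 0 1) (ball 0 1) := fun w hw => by
    rw [mem_ball_zero_iff]; exact hflt w hw
  have hcont : ∀ w ∈ ball (0 : ℂ) 1, ContinuousAt (Ti 3) w := fun w hw =>
    ((Ti_diffOn 3).differentiableAt (isOpen_ball.mem_nhds hw)).continuousAt
  have hconv : ∀ w ∈ ball (0 : ℂ) 1, ∀ u : ι → ℂ, (∀ i, u i ∈ ball (0 : ℂ) 1) →
      Tendsto u l (𝓝 w) → Tendsto (fun i => k i (u i)) l (𝓝 (Ti 3 (f w))) := by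
    intro w hw u hu1 hu2
    have h1 := (hcont (f w) (hfb hw)).tendsto.comp (hf3 w hw u hu2)
    refine h1.congr ?_
    intro i
    exact Ti_T h3 (hm i (u i) (hu1 i))
  have hgd : DifferentiableOn ℂ (fun w => Ti 3 (f w)) (ball 0 1) := (Ti_diffOn 3).comp hf1 hfb
  have hg0 : Ti 3 (f 0) = 0 := by rw [hf0, Ti_zero]
  have hgR : Ti 3 (f R) = ((1 / 2 : ℝ) : ℂ) := by
    have h1 := hconv R (hball R hR1) (fun i => (ρ i : ℂ)) (fun i => hball _ (hρ1 i))
      ((Complex.continuous_ofReal.tendsto R).comp hR)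
    have h2 : (fun i => k i ((fun i => (ρ i : ℂ)) i)) = fun _ => ((1 / 2 : ℝ) : ℂ) := by
      funext i; exact hρ i
    rw [h2] at h1
    exact tendsto_nhds_unique h1 tendsto_const_nhds
  refine ⟨fun w => Ti 3 (f w), hgd, ?_, hg0, hgR, ?_⟩
  · intro w hw
    exact hconv w hw (fun _ => w) (fun _ => hw) tendsto_const_nhds
  · have han : AnalyticOnNhd ℂ (fun w => Ti 3 (f w)) (ball 0 1) := hgd.analyticOnNhd isOpen_ball
    rcases han.is_constant_or_isOpen (convex_ball (0 : ℂ) 1).isPreconnected with ⟨c, hc⟩ | ho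
    · exfalso
      have e1 := hc 0 hzero
      have e2 := hc R (hball R hR1)
      simp only [hg0] at e1
      simp only [hgR] at e2
      rw [← e1] at e2
      norm_num at e2
    · exact ho _ Subset.rfl isOpen_ball

end Pool.Agent.H366R3
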