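import Mathlib
import Pool.Agent.H366R3.Lim

set_option autoImplicit false

open Set Filter Topology Metric
open scoped ComplexConjugate

namespace Pool.Agent.H366R3

/-- the compression parameters -/
noncomputable def ee (t : ℝ) : ℝ := Real.exp (1 - Real.exp t)

lemma ee_pos (t : ℝ) : 0 < ee t := Real.exp_pos _

lemma ee_cont : Continuous ee := by unfold ee; fun_prop

lemma ee_tendsto : Tendsto ee atTop (𝓝 0) := by
  unfold ee
  apply Real.tendsto_exp_atBot.comp
  exact tendsto_atBot_add_const_left _ _ (tendsto_neg_atTop_atBot.comp Real.tendsto_exp_atTop)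

noncomputable def psi (t : ℝ) : ℂ → ℂ := (exists_RM (ee t) (ee_pos t).ne').choose

noncomputable def gg (t : ℝ) : ℂ → ℂ := (exists_RM (ee t) (ee_pos t).ne').choose_spec.choose

noncomputable def rr (t : ℝ) : ℝ := (exists_RM (ee t) (ee_pos t).ne').choose_spec.choose_spec.choose

lemma rm (t : ℝ) : RM (ee t) (psi t) (gg t) (rr t) :=
  (exists_RM (ee t) (ee_pos t).ne').choose_spec.choose_spec.choose_spec

lemma W_tendsto {κ : Type*} {m : Filter κ} {τ y : κ → ℝ} {y₀ c : ℝ} (hy₀ : y₀ ≠ 0)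
    (hτ : Tendsto τ m atTop) (hs : Tendsto (fun i => Real.sin (τ i)) m (𝓝 c))
    (hy : Tendsto y m (𝓝 y₀)) : Tendsto (fun i => W (ee (τ i) * y i)) m (𝓝 (2 + c)) := by
  have hlog : Tendsto (fun i => Real.log (y i)) m (𝓝 (Real.log y₀)) := hy.log hy₀
  have hexp : Tendsto (fun i => Real.exp (-τ i)) m (𝓝 0) :=
    Real.tendsto_exp_atBot.comp (tendsto_neg_atTop_atBot.comp hτ)
  have hprod : Tendsto (fun i => 1 - Real.exp (-τ i) * Real.log (y i)) m (𝓝 1) := by
    have := (hexp.mul hlog).const_sub 1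
    simpa using this
  have heta : Tendsto (fun i => Real.log (1 - Real.exp (-τ i) * Real.log (y i))) m (𝓝 0) := by
    have := hprod.log one_ne_zero
    simpa using this
  have hy0 : ∀ᶠ i in m, y i ≠ 0 := hy.eventually_ne hy₀
  have hpos : ∀ᶠ i in m, 0 < 1 - Real.exp (-τ i) * Real.log (y i) :=
    hprod.eventually (lt_mem_nhds one_pos)
  have hdiff : Tendsto (fun i => Real.sin (τ i + Real.log (1 - Real.exp (-τ i) * Real.log (y i))) -
      Real.sin (τ i)) m (𝓝 0) := by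
    have hn := heta.norm
    rw [norm_zero] at hn
    apply squeeze_zero_norm _ hn
    intro i
    rw [Real.norm_eq_abs, Real.norm_eq_abs]
    have := Real.abs_sin_sub_sin_le (τ i + Real.log (1 - Real.exp (-τ i) * Real.log (y i))) (τ i)
    simpa using this
  have h1 := (hs.add hdiff).const_add 2
  simp only [add_zero] at h1
  refine h1.congr' ?_
  filter_upwards [hy0, hpos] with i hi hi2
  rw [W, ee, Real.log_mul (Real.exp_pos _).ne' hi, Real.log_exp]
  have e1 : 1 - (1 - Real.exp (τ i) + Real.log (y i)) =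
      Real.exp (τ i) * (1 - Real.exp (-τ i) * Real.log (y i)) := by
    have : Real.exp (τ i) * Real.exp (-τ i) = 1 := by rw [← Real.exp_add]; simp
    linear_combination (Real.log (y i)) * this
  rw [e1, Real.log_mul (Real.exp_pos _).ne' hi2.ne', Real.log_exp]
  ring

lemma U_re_le {ε : ℝ} {z : ℂ} (hz : z ∈ U ε) : |z.re| ≤ W (ε * z.im) := by
  rcases hz.2 with h | ⟨-, h⟩
  · exact h.le.trans (one_le_W _)
  · exact h.le

lemma U_joint {ε₀ : ℝ} (h0 : ε₀ ≠ 0) {z : ℂ} (hz : z ∈ U ε₀) :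
    ∀ᶠ p : ℝ × ℂ in 𝓝 (ε₀, z), p.2 ∈ U p.1 := by
  obtain ⟨h1, h2⟩ := hz
  have c1 : ∀ᶠ p : ℝ × ℂ in 𝓝 (ε₀, z), |p.1 * p.2.im| < 1 / 2 := by
    have : ContinuousAt (fun p : ℝ × ℂ => |p.1 * p.2.im|) (ε₀, z) := by fun_prop
    exact this.eventually_lt continuousAt_const h1
  rcases h2 with h2 | ⟨h2, h3⟩
  · have c2 : ∀ᶠ p : ℝ × ℂ in 𝓝 (ε₀, z), |p.2.re| < 1 := by
      have : ContinuousAt (fun p : ℝ × ℂ => |p.2.re|) (ε₀, z) := by fun_prop
      exact this.eventually_lt continuousAt_const h2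
    filter_upwards [c1, c2] with p hp1 hp2
    exact ⟨hp1, Or.inl hp2⟩
  · have c2 : ∀ᶠ p : ℝ × ℂ in 𝓝 (ε₀, z), |p.2.re| < W (p.1 * p.2.im) := by
      have e1 : ContinuousAt (fun p : ℝ × ℂ => |p.2.re|) (ε₀, z) := by fun_prop
      have e2 : ContinuousAt (fun p : ℝ × ℂ => W (p.1 * p.2.im)) (ε₀, z) := by
        have e3 : ContinuousAt (fun p : ℝ × ℂ => p.1 * p.2.im) (ε₀, z) := by fun_prop
        have e4 : ContinuousAt W (ε₀ * z.im) := W_cont (mul_ne_zero h0 h2) (by linarith)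
        exact ContinuousAt.comp (f := fun p : ℝ × ℂ => p.1 * p.2.im) e4 e3
      exact e1.eventually_lt e2 h3
    have c3 : ∀ᶠ p : ℝ × ℂ in 𝓝 (ε₀, z), p.2.im ≠ 0 := by
      have : ContinuousAt (fun p : ℝ × ℂ => p.2.im) (ε₀, z) := by fun_prop
      exact this.eventually_ne h2
    filter_upwards [c1, c2, c3] with p hp1 hp2 hp3
    exact ⟨hp1, Or.inr ⟨hp3, hp2⟩⟩

/-- moving a point of an open set outwards -/
lemma move_out {O : Set ℂ} (hO : IsOpen O) {w : ℂ} (hw : w ∈ O) :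
    ∃ δ > 0, ∀ s : ℝ, |s| ≤ δ → (⟨w.re + (if 0 ≤ w.re then δ else -δ), w.im + s⟩ : ℂ) ∈ O ∧
      |w.re| < |w.re + (if 0 ≤ w.re then δ else -δ)| := by
  obtain ⟨δ, hδ, hb⟩ := Metric.isOpen_iff.1 hO w hw
  refine ⟨δ / 4, by positivity, fun s hs => ⟨hb ?_, ?_⟩⟩
  · rw [mem_ball, dist_eq_norm]
    refine lt_of_le_of_lt (Complex.norm_le_abs_re_add_abs_im _) ?_
    have e1 : |(((⟨w.re + (if 0 ≤ w.re then δ / 4 else -(δ / 4)), w.im + s⟩ : ℂ) - w)).re| = δ / 4 := by
      show |w.re + (if 0 ≤ w.re then δ / 4 else -(δ / 4)) - w.re| = δ / 4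
      rw [add_sub_cancel_left]
      split_ifs
      · exact abs_of_pos (by positivity)
      · rw [abs_neg]; exact abs_of_pos (by positivity)
    have e2 : |(((⟨w.re + (if 0 ≤ w.re then δ / 4 else -(δ / 4)), w.im + s⟩ : ℂ) - w)).im| = |s| := by
      show |w.im + s - w.im| = |s|
      rw [add_sub_cancel_left]
    rw [e1, e2]
    linarith
  · split_ifs with h
    · rw [abs_of_nonneg h, abs_of_nonneg (by positivity)]; linarith
    · push Not at h
      rw [abs_of_neg h, abs_of_neg (by linarith)]; linarith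

/-- `W` takes the value one arbitrarily close to the origin -/
lemma W_one {δ : ℝ} (hδ : 0 < δ) : ∃ y : ℝ, 0 < y ∧ y < δ ∧ W y = 1 := by
  have h1 : Tendsto (fun n : ℕ => ee (3 * Real.pi / 2 + n * (2 * Real.pi))) atTop (𝓝 0) := by
    apply ee_tendsto.comp
    apply tendsto_atTop_add_const_left
    exact tendsto_natCast_atTop_atTop.atTop_mul_const (by positivity)
  obtain ⟨n, hn⟩ := (h1.eventually (gt_mem_nhds hδ)).exists
  refine ⟨_, ee_pos _, hn, ?_⟩
  rw [W, ee, Real.log_exp]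
  have : 1 - (1 - Real.exp (3 * Real.pi / 2 + n * (2 * Real.pi))) =
    Real.exp (3 * Real.pi / 2 + n * (2 * Real.pi)) := by ring
  rw [this, Real.log_exp, Real.sin_add_nat_mul_two_pi]
  have : Real.sin (3 * Real.pi / 2) = -1 := by
    rw [show 3 * Real.pi / 2 = Real.pi / 2 + Real.pi by ring, Real.sin_add_pi, Real.sin_pi_div_two]
  rw [this]; norm_num

lemma interior_L {ε₀ : ℝ} (h0 : 0 < ε₀) {O : Set ℂ} (hO : IsOpen O)
    (hL : ∀ w ∈ O, |ε₀ * w.im| ≤ 1 / 2 ∧ (w.im ≠ 0 → |w.re| ≤ W (ε₀ * w.im))) : O ⊆ U ε₀ := by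
  intro w hw
  obtain ⟨δ, hδ, hm⟩ := move_out hO hw
  refine ⟨?_, ?_⟩
  · -- vertical shift
    obtain ⟨s, hs, hs2⟩ : ∃ s : ℝ, |s| ≤ δ ∧ |ε₀ * w.im| < |ε₀ * (w.im + s)| := by
      rcases le_or_gt 0 w.im with h | h
      · refine ⟨δ, (abs_of_pos hδ).le, ?_⟩
        rw [abs_of_nonneg (by positivity), abs_of_nonneg (by positivity)]
        nlinarith
      · refine ⟨-δ, by rw [abs_neg]; exact (abs_of_pos hδ).le, ?_⟩
        have e1 : |w.im + -δ| = -(w.im + -δ) := abs_of_neg (by linarith)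
        rw [abs_mul, abs_mul, abs_of_neg h, e1]
        have : 0 < |ε₀| := abs_pos.2 h0.ne'
        nlinarith
    exact hs2.trans_le (hL _ (hm s hs).1).1
  · by_cases him : w.im = 0
    · left
      obtain ⟨y, hy0, hyδ, hy1⟩ := W_one (δ := ε₀ * δ) (by positivity)
      have hs : |y / ε₀| ≤ δ := by
        rw [abs_of_pos (by positivity), div_le_iff₀ h0]; linarith
      have h1 := hm _ hs
      have h2 := (hL _ h1.1).2 (by
        show w.im + y / ε₀ ≠ 0
        rw [him, zero_add]; positivity)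
      have h3 : ε₀ * (w.im + y / ε₀) = y := by
        rw [him, zero_add]; field_simp
      simp only at h2
      rw [h3, hy1] at h2
      exact h1.2.trans_le h2
    · right
      refine ⟨him, ?_⟩
      have h1 := hm 0 (by rw [abs_zero]; exact hδ.le)
      have h2 := (hL _ h1.1).2 (by
        show w.im + 0 ≠ 0
        rw [add_zero]; exact him)
      simp only [add_zero] at h2
      exact h1.2.trans_le h2

lemma rr_norm (t : ℝ) : ‖(rr t : ℂ)‖ = rr t := by
  rw [Complex.norm_real, Real.norm_eq_abs, abs_of_pos (rm t).r0]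

/-- limits of the modulus function along ultrafilters -/
lemma rr_limit {ι : Type*} (l : Ultrafilter ι) (τ : ι → ℝ) :
    ∃ R ∈ Icc (0 : ℝ) 1, Tendsto (fun i => rr (τ i)) l (𝓝 R) := by
  have h1 : (l.map (fun i => rr (τ i)) : Filter ℝ) ≤ 𝓟 (Icc (0 : ℝ) 1) := by
    rw [le_principal_iff, Ultrafilter.mem_coe, Ultrafilter.mem_map]
    show ∀ᶠ i in (l : Filter ι), rr (τ i) ∈ Icc (0 : ℝ) 1
    exact Eventually.of_forall fun i => ⟨(rm (τ i)).r0.le, (rm (τ i)).r1.le⟩
  exact isCompact_Icc.ultrafilter_le_nhds _ h1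

/-- continuity of the modulus function -/
lemma rr_tendsto {ι : Type*} (l : Ultrafilter ι) {τ : ι → ℝ} {t₀ : ℝ}
    (hτ : Tendsto τ l (𝓝 t₀)) : Tendsto (fun i => rr (τ i)) l (𝓝 (rr t₀)) := by
  obtain ⟨R, ⟨hR0, hR1⟩, hR⟩ := rr_limit l τ
  have he : Tendsto (fun i => ee (τ i)) l (𝓝 (ee t₀)) := (ee_cont.tendsto t₀).comp hτ
  -- upper bound
  obtain ⟨f, hf1, hf2, hf3⟩ := up_limit l (V := U (ee t₀)) (U_open _ (ee_pos t₀).ne')
    (D := fun i => U (ee (τ i))) (F := fun i => psi (τ i)) (fun i => (rm (τ i)).dψ)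
    (fun i z hz => ball_subset_closedBall ((rm (τ i)).mψ hz))
    (by
      intro z hz
      have h1 := U_joint (ee_pos t₀).ne' hz
      have h2 : Tendsto (fun p : ι × ℂ => (ee (τ p.1), p.2)) ((l : Filter ι) ×ˢ 𝓝 z)
          (𝓝 (ee t₀, z)) := by
        rw [nhds_prod_eq]
        exact (he.comp tendsto_fst).prodMk tendsto_snd
      exact h2.eventually h1)
  have hf0 : f 0 = 0 := by
    have h1 := hf3 0 (zero_mem_U _) (fun _ => 0) tendsto_const_nhds
    have h2 : (fun i => psi (τ i) ((fun _ => 0) i)) = fun _ => (0 : ℂ) := by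
      funext i
      exact (rm (τ i)).ψ0
    rw [h2] at h1
    exact tendsto_nhds_unique h1 tendsto_const_nhds
  have hfR : f ((1 / 2 : ℝ) : ℂ) = R := by
    have h1 := hf3 _ (half_mem_U _) (fun _ => ((1 / 2 : ℝ) : ℂ)) tendsto_const_nhds
    have h2 : (fun i => psi (τ i) ((fun _ => ((1 / 2 : ℝ) : ℂ)) i)) = fun i => (rr (τ i) : ℂ) := by
      funext i
      exact (rm (τ i)).ψh
    rw [h2] at h1
    exact tendsto_nhds_unique h1 ((Complex.continuous_ofReal.tendsto R).comp hR)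
  have hle : R ≤ rr t₀ := by
    have := (rm t₀).upper hf1 hf2 hf0
    rw [hfR, Complex.norm_real, Real.norm_eq_abs, abs_of_nonneg hR0] at this
    exact this
  have hRlt : |R| < 1 := by
    rw [abs_of_nonneg hR0]; exact hle.trans_lt (rm t₀).r1
  -- lower bound
  obtain ⟨g, hg1, hg2, hg3, hg4, hg5⟩ := low_limit l (k := fun i => gg (τ i))
    (ρ := fun i => rr (τ i)) (fun i => (rm (τ i)).dg) (fun i w hw => U_strip3 ((rm (τ i)).mg hw))
    (fun i => (rm (τ i)).g0) (fun i => (rm (τ i)).gr)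
    (fun i => by rw [abs_of_pos (rm (τ i)).r0]; exact (rm (τ i)).r1) hR hRlt
  have hsub : g '' ball 0 1 ⊆ U (ee t₀) := by
    apply interior_L (ee_pos t₀) hg5
    rintro w ⟨ζ, hζ, rfl⟩
    have h1 := hg2 ζ hζ
    have h2 : ∀ i, gg (τ i) ζ ∈ U (ee (τ i)) := fun i => (rm (τ i)).mg hζ
    have him : Tendsto (fun i => (gg (τ i) ζ).im) l (𝓝 (g ζ).im) :=
      (Complex.continuous_im.tendsto _).comp h1
    have hre : Tendsto (fun i => (gg (τ i) ζ).re) l (𝓝 (g ζ).re) :=
      (Complex.continuous_re.tendsto _).comp h1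
    have hprod : Tendsto (fun i => ee (τ i) * (gg (τ i) ζ).im) l (𝓝 (ee t₀ * (g ζ).im)) :=
      he.mul him
    have hb : |ee t₀ * (g ζ).im| ≤ 1 / 2 := by
      exact le_of_tendsto hprod.abs (Eventually.of_forall fun i => (h2 i).1.le)
    refine ⟨hb, fun hne => ?_⟩
    have hW : Tendsto (fun i => W (ee (τ i) * (gg (τ i) ζ).im)) l (𝓝 (W (ee t₀ * (g ζ).im))) := by
      have : ContinuousAt W (ee t₀ * (g ζ).im) :=
        W_cont (mul_ne_zero (ee_pos t₀).ne' hne) (by linarith)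
      exact this.tendsto.comp hprod
    exact le_of_tendsto_of_tendsto hre.abs hW (Eventually.of_forall fun i => U_re_le (h2 i))
  have hge : rr t₀ ≤ R := by
    have hRb : (R : ℂ) ∈ ball (0 : ℂ) 1 := by
      rw [mem_ball_zero_iff, Complex.norm_real, Real.norm_eq_abs]; exact hRlt
    have := (rm t₀).lower hg1 (fun w hw => hsub (mem_image_of_mem g hw)) hg3 hRb hg4
    rw [Complex.norm_real, Real.norm_eq_abs, abs_of_nonneg hR0] at this
    exact this
  rw [← le_antisymm hle hge]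
  exact hR

theorem rr_continuous : Continuous rr := by
  rw [continuous_iff_continuousAt]
  intro t₀
  rw [ContinuousAt, tendsto_iff_ultrafilter]
  intro l hl
  exact rr_tendsto l (τ := id) hl

end Pool.Agent.H366R3
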