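import Mathlib
import Pool.Agent.Helper930.WD
import Pool.Agent.Helper133.Brouwer

set_option autoImplicit false

open Set Filter Topology MeasureTheory Metric
open scoped ContDiff ENNReal NNReal

namespace Pool.Agent.H366R3

/-- Cauchy-Schwarz for a weight of total mass one. -/
lemma sq_lintegral_le {φ F : ℂ → ℝ≥0∞} (hφ : Measurable φ) (hF : AEMeasurable F volume)
    (h1 : ∫⁻ w, φ w = 1) : (∫⁻ w, φ w * F w) ^ 2 ≤ ∫⁻ w, φ w * F w ^ 2 := by
  have hc : (2 : ℝ).HolderConjugate 2 := Real.HolderConjugate.two_two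
  have hm1 : AEMeasurable (fun w => φ w ^ (1 / 2 : ℝ)) volume := (hφ.pow_const _).aemeasurable
  have hm2 : AEMeasurable (fun w => φ w ^ (1 / 2 : ℝ) * F w) volume := hm1.mul hF
  have h := ENNReal.lintegral_mul_le_Lp_mul_Lq volume hc hm1 hm2
  have e1 : ∀ w, ((fun w => φ w ^ (1 / 2 : ℝ)) * (fun w => φ w ^ (1 / 2 : ℝ) * F w)) w
      = φ w * F w := by
    intro w
    simp only [Pi.mul_apply]
    rw [← mul_assoc, ← ENNReal.rpow_add_of_nonneg _ _ (by norm_num) (by norm_num)]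
    norm_num
  have e2 : ∀ w, (φ w ^ (1 / 2 : ℝ)) ^ (2 : ℝ) = φ w := by
    intro w
    rw [← ENNReal.rpow_mul]; norm_num
  have e3 : ∀ w, (φ w ^ (1 / 2 : ℝ) * F w) ^ (2 : ℝ) = φ w * F w ^ 2 := by
    intro w
    rw [ENNReal.mul_rpow_of_nonneg _ _ (by norm_num), e2]
    norm_num
  simp only [e1, e2, e3, h1] at h
  calc (∫⁻ w, φ w * F w) ^ 2 ≤ (1 ^ (1 / 2 : ℝ) * (∫⁻ w, φ w * F w ^ 2) ^ (1 / 2 : ℝ)) ^ 2 :=
        pow_le_pow_left₀ zero_le h 2
    _ = ∫⁻ w, φ w * F w ^ 2 := by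
        rw [ENNReal.one_rpow, one_mul, ← ENNReal.rpow_natCast, ← ENNReal.rpow_mul]
        norm_num

/-- Jensen and Fubini for mollification. -/
lemma lintegral_moll_sq_le {φ : ℂ → ℝ} (hφ : Continuous φ) (h0 : ∀ z, 0 ≤ φ z)
    (h1 : ∫⁻ w, ENNReal.ofReal (φ w) = 1) {f : ℂ → ℂ} (hf : AEStronglyMeasurable f volume) :
    ∫⁻ z, ‖∫ w, φ (z - w) • f w‖ₑ ^ 2 ≤ ∫⁻ w, ‖f w‖ₑ ^ 2 := by
  have hφm : Measurable fun w => ENNReal.ofReal (φ w) := hφ.measurable.ennreal_ofReal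
  have step : ∀ z, ‖∫ w, φ (z - w) • f w‖ₑ ^ 2 ≤
      ∫⁻ w, ENNReal.ofReal (φ (z - w)) * ‖f w‖ₑ ^ 2 := by
    intro z
    have hm : Measurable fun w => ENNReal.ofReal (φ (z - w)) :=
      hφm.comp (measurable_const.sub measurable_id)
    have h2 : ∫⁻ w, ENNReal.ofReal (φ (z - w)) = 1 := by
      rw [← h1]
      exact lintegral_sub_left_eq_self (fun w => ENNReal.ofReal (φ w)) z
    refine le_trans ?_ (sq_lintegral_le hm hf.enorm h2)
    apply pow_le_pow_left₀ zero_le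
    refine (enorm_integral_le_lintegral_enorm _).trans (le_of_eq ?_)
    congr 1
    funext w
    rw [enorm_smul, Real.enorm_of_nonneg (h0 _)]
  calc ∫⁻ z, ‖∫ w, φ (z - w) • f w‖ₑ ^ 2 ≤
      ∫⁻ z, ∫⁻ w, ENNReal.ofReal (φ (z - w)) * ‖f w‖ₑ ^ 2 := lintegral_mono step
    _ = ∫⁻ w, ∫⁻ z, ENNReal.ofReal (φ (z - w)) * ‖f w‖ₑ ^ 2 := by
        apply lintegral_lintegral_swap
        have ha : AEMeasurable (fun p : ℂ × ℂ => ENNReal.ofReal (φ (p.1 - p.2)))
            (volume.prod volume) := (hφm.comp (measurable_fst.sub measurable_snd)).aemeasurable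
        have hb : AEMeasurable (fun p : ℂ × ℂ => ‖f p.2‖ₑ ^ 2) (volume.prod volume) :=
          (hf.enorm.pow_const 2).comp_snd
        exact ha.mul hb
    _ = ∫⁻ w, ‖f w‖ₑ ^ 2 := by
        congr 1
        funext w
        have hm : Measurable fun z => ENNReal.ofReal (φ (z - w)) :=
          hφm.comp (measurable_id.sub_const w)
        rw [lintegral_mul_const'' _ hm.aemeasurable]
        have : ∫⁻ z, ENNReal.ofReal (φ (z - w)) = 1 := by
          rw [← h1]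
          exact lintegral_sub_right_eq_self (fun w => ENNReal.ofReal (φ w)) w
        rw [this, one_mul]

lemma det_formula (A : ℂ →L[ℝ] ℂ) : A.det = (A 1).re * (A Complex.I).im - (A 1).im * (A Complex.I).re := by
  have h : A.det = LinearMap.det (A : ℂ →ₗ[ℝ] ℂ) := rfl
  rw [h, ← LinearMap.det_toMatrix Complex.basisOneI, Matrix.det_fin_two]
  simp [LinearMap.toMatrix_apply, Complex.coe_basisOneI_repr, Complex.coe_basisOneI]
  ring

lemma abs_det_le (A : ℂ →L[ℝ] ℂ) : 2 * |A.det| ≤ ‖A 1‖ ^ 2 + ‖A Complex.I‖ ^ 2 := by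
  rw [det_formula, ← Complex.normSq_eq_norm_sq, ← Complex.normSq_eq_norm_sq, Complex.normSq_apply,
    Complex.normSq_apply]
  rcases abs_cases ((A 1).re * (A Complex.I).im - (A 1).im * (A Complex.I).re) with h | h
  · rw [h.1]
    nlinarith [sq_nonneg ((A 1).re - (A Complex.I).im), sq_nonneg ((A 1).im + (A Complex.I).re)]
  · rw [h.1]
    nlinarith [sq_nonneg ((A 1).re + (A Complex.I).im), sq_nonneg ((A 1).im - (A Complex.I).re)]

/-- the energy density -/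
noncomputable def ed (A : ℂ →L[ℝ] ℂ) : ℝ≥0∞ := ‖A 1‖ₑ ^ 2 + ‖A Complex.I‖ₑ ^ 2

lemma two_det_le (A : ℂ →L[ℝ] ℂ) : 2 * ENNReal.ofReal |A.det| ≤ ed A := by
  have h := ENNReal.ofReal_le_ofReal (abs_det_le A)
  rw [ENNReal.ofReal_mul (by norm_num), ENNReal.ofReal_add (by positivity) (by positivity),
    ENNReal.ofReal_pow (norm_nonneg _), ENNReal.ofReal_pow (norm_nonneg _), ofReal_norm,
    ofReal_norm] at h
  simpa [ed] using h

end Pool.Agent.H366R3
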