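import Mathlib
import Pool.Agent.H366R3.Energy1

set_option autoImplicit false

open Set Filter Topology MeasureTheory Metric
open scoped ContDiff ENNReal NNReal

namespace Pool.Agent.H366R3

open Pool.Agent.Helper930.WD

lemma exists_mollifier {δ : ℝ} (hδ : 0 < δ) : ∃ φ : ℂ → ℝ, ContDiff ℝ ∞ φ ∧ HasCompactSupport φ ∧
    (∀ z, 0 ≤ φ z) ∧ ∫⁻ w, ENNReal.ofReal (φ w) = 1 ∧ ∫ w, φ w = 1 ∧
    tsupport φ ⊆ closedBall 0 δ := by
  let b : ContDiffBump (0 : ℂ) := ⟨δ / 2, δ, half_pos hδ, half_lt_self hδ⟩
  refine ⟨b.normed volume, b.contDiff_normed, b.hasCompactSupport_normed, b.nonneg_normed, ?_,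
    b.integral_normed, ?_⟩
  · rw [← ofReal_integral_eq_lintegral_ofReal b.integrable_normed
      (Eventually.of_forall b.nonneg_normed), b.integral_normed, ENNReal.ofReal_one]
  · rw [b.tsupport_normed_eq]

/-- radial retraction onto a closed ball -/
noncomputable def clamp (x : ℂ) (t : ℝ) (z : ℂ) : ℂ := x + (t / max t ‖z - x‖ : ℝ) • (z - x)

lemma clamp_continuous {x : ℂ} {t : ℝ} (ht : 0 < t) : Continuous (clamp x t) := by
  have h1 : Continuous fun z : ℂ => t / max t ‖z - x‖ := by
    apply Continuous.div continuous_const (by fun_prop)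
    intro z
    exact (lt_of_lt_of_le ht (le_max_left _ _)).ne'
  have h2 : Continuous fun z : ℂ => z - x := by fun_prop
  exact continuous_const.add (h1.smul h2)

lemma clamp_mem {x : ℂ} {t : ℝ} (ht : 0 < t) (z : ℂ) : clamp x t z ∈ closedBall x t := by
  rw [mem_closedBall, dist_eq_norm]
  unfold clamp
  rw [add_sub_cancel_left, norm_smul, Real.norm_of_nonneg (by positivity)]
  have h : 0 < max t ‖z - x‖ := lt_of_lt_of_le ht (le_max_left _ _)
  rw [div_mul_eq_mul_div, div_le_iff₀ h]
  exact mul_le_mul_of_nonneg_left (le_max_right _ _) ht.le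

lemma clamp_eq {x : ℂ} {t : ℝ} (ht : 0 < t) {z : ℂ} (hz : z ∈ closedBall x t) :
    clamp x t z = z := by
  rw [mem_closedBall, dist_eq_norm] at hz
  unfold clamp
  rw [max_eq_left hz, div_self ht.ne', one_smul]
  ring

/-- a map close to a homeomorphism covers a large part of the image -/
lemma cover {x : ℂ} {t η : ℝ} (ht : 0 < t) {g f G : ℂ → ℂ}
    (hg : ContinuousOn g (closedBall x t)) (hf : ContinuousOn f (closedBall x t))
    (hG : ContinuousOn G (g '' closedBall x t)) (hGg : ∀ z ∈ closedBall x t, G (g z) = z)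
    (hfg : ∀ z ∈ closedBall x t, ‖f z - g z‖ ≤ η) {y : ℂ}
    (hy : closedBall y η ⊆ g '' closedBall x t) : y ∈ f '' closedBall x t := by
  have hcl : IsClosed (g '' closedBall x t) :=
    ((isCompact_closedBall x t).image_of_continuousOn hg).isClosed
  obtain ⟨H, hH⟩ := ContinuousMap.exists_restrict_eq hcl
    (⟨(g '' closedBall x t).domRestrict G, hG.domRestrict⟩ : C(g '' closedBall x t, ℂ))
  have hHG : ∀ w ∈ g '' closedBall x t, H w = G w := by
    intro w hw
    have := congrArg (fun F => F ⟨w, hw⟩) hH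
    simpa using this
  let Φ : ℂ → ℂ := fun p => clamp x t (H (y - (f (clamp x t p) - g (clamp x t p))))
  have hcf : Continuous fun p => f (clamp x t p) :=
    hf.comp_continuous (clamp_continuous ht) (clamp_mem ht)
  have hcg : Continuous fun p => g (clamp x t p) :=
    hg.comp_continuous (clamp_continuous ht) (clamp_mem ht)
  have hΦ : Continuous Φ :=
    (clamp_continuous ht).comp (H.continuous.comp (continuous_const.sub (hcf.sub hcg)))
  obtain ⟨p, hp⟩ := Pool.Agent.Helper133.Brouwer.brouwer Φ hΦ (‖x‖ + t) (by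
    intro q
    have h1 := clamp_mem (x := x) ht (H (y - (f (clamp x t q) - g (clamp x t q))))
    rw [mem_closedBall, dist_eq_norm] at h1
    calc ‖Φ q‖ = ‖x + (Φ q - x)‖ := by congr 1; ring
      _ ≤ ‖x‖ + ‖Φ q - x‖ := norm_add_le _ _
      _ ≤ ‖x‖ + t := by gcongr)
  have hpm : p ∈ closedBall x t := by rw [← hp]; exact clamp_mem ht _
  have hcp : clamp x t p = p := clamp_eq ht hpm
  have hy' : y - (f p - g p) ∈ g '' closedBall x t := by
    apply hy
    rw [mem_closedBall, dist_eq_norm]
    have : y - (f p - g p) - y = -(f p - g p) := by ring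
    rw [this, norm_neg]
    exact hfg p hpm
  obtain ⟨q, hq, hqe⟩ := hy'
  have h2 : p = q := by
    have h3 : Φ p = clamp x t (H (y - (f p - g p))) := by
      show clamp x t (H (y - (f (clamp x t p) - g (clamp x t p)))) = _
      rw [hcp]
    rw [hp, hHG _ ⟨q, hq, hqe⟩, ← hqe, hGg q hq, clamp_eq ht hq] at h3
    exact h3
  refine ⟨p, hpm, ?_⟩
  rw [← h2] at hqe
  linear_combination hqe

lemma moll_close {φ : ℂ → ℝ} (hφ : Continuous φ) (hc : HasCompactSupport φ) (h0 : ∀ z, 0 ≤ φ z)
    (h1 : ∫ w, φ w = 1) {δ : ℝ} (hs : tsupport φ ⊆ closedBall 0 δ) {g : ℂ → ℂ}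
    (hg : Integrable g) {z c : ℂ} {η : ℝ} (hη : ∀ w ∈ closedBall z δ, ‖g w - c‖ ≤ η) :
    ‖moll φ g z - c‖ ≤ η := by
  obtain ⟨C, hC⟩ := hc.exists_bound_of_continuous hφ
  have hφz : Continuous fun w => φ (z - w) := hφ.comp (continuous_const.sub continuous_id)
  have hiφ : Integrable fun w => φ (z - w) := by
    have h : Integrable φ (volume : Measure ℂ) := hφ.integrable_of_hasCompactSupport hc
    exact h.comp_sub_left z
  have hi : Integrable fun w => φ (z - w) • g w :=
    hg.bdd_smul C hφz.aestronglyMeasurable (Eventually.of_forall fun w => hC _)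
  have h2 : ∫ w, φ (z - w) = 1 := by
    rw [← h1]; exact integral_sub_left_eq_self φ volume z
  have h3 : moll φ g z - c = ∫ w, φ (z - w) • (g w - c) := by
    simp_rw [smul_sub]
    rw [integral_sub hi (hiφ.smul_const c), integral_smul_const, h2, one_smul]
    rfl
  rw [h3]
  calc ‖∫ w, φ (z - w) • (g w - c)‖ ≤ ∫ w, φ (z - w) * η := by
        apply norm_integral_le_of_norm_le (hiφ.mul_const η)
        filter_upwards with w
        rw [norm_smul, Real.norm_of_nonneg (h0 _)]
        by_cases hw : w ∈ closedBall z δ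
        · exact mul_le_mul_of_nonneg_left (hη w hw) (h0 _)
        · have : φ (z - w) = 0 := by
            by_contra hne
            apply hw
            have := hs (subset_tsupport φ (Function.mem_support.mpr hne))
            rw [mem_closedBall, dist_zero_right] at this
            rwa [mem_closedBall, dist_comm, dist_eq_norm]
          rw [this]; simp
    _ = η := by rw [integral_mul_const, h2, one_mul]

/-- the basic estimate on balls -/
lemma ball_est {Ω : Set ℂ} {g : ℂ → ℂ} {Dg : ℂ → ℂ →L[ℝ] ℂ} (hD : WeakDerivOn Ω g Dg) {x : ℂ}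
    {t s : ℝ} (ht : 0 < t) (hts : t < s) (hs : closedBall x s ⊆ Ω) (hg : ContinuousOn g Ω)
    {G : ℂ → ℂ} (hG : ContinuousOn G (g '' closedBall x t))
    (hGg : ∀ z ∈ closedBall x t, G (g z) = z) {η : ℝ} (hη : 0 < η) :
    2 * volume {y | closedBall y η ⊆ g '' closedBall x t} ≤ ∫⁻ z in closedBall x s, ed (Dg z) := by
  have hK : IsCompact (closedBall x s) := isCompact_closedBall x s
  have hgs : ContinuousOn g (closedBall x s) := hg.mono hs
  obtain ⟨d, hd0, hd⟩ := Metric.uniformContinuousOn_iff_le.mp
    (hK.uniformContinuousOn_of_continuous hgs) η hη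
  set δ := min d (s - t) with hδ
  have hδ0 : 0 < δ := lt_min hd0 (by linarith)
  obtain ⟨φ, hφ, hc, h0, h1, h1', hsupp⟩ := exists_mollifier hδ0
  set g' : ℂ → ℂ := (closedBall x s).indicator g with hg'
  have hg'i : Integrable g' := (hgs.integrableOn_compact hK).integrable_indicator
    measurableSet_closedBall
  have hsub : ∀ z ∈ closedBall x t, closedBall z δ ⊆ closedBall x s := by
    intro z hz w hw
    rw [mem_closedBall] at *
    have h2 : δ ≤ s - t := min_le_right _ _
    calc dist w x ≤ dist w z + dist z x := dist_triangle _ _ _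
      _ ≤ s := by linarith
  set f : ℂ → ℂ := moll φ g' with hf
  have hderiv : ∀ z, ∃ A : ℂ →L[ℝ] ℂ, HasFDerivAt f A z ∧
      ∀ v, A v = ∫ w, (fderiv ℝ φ (z - w) v) • g' w := fun z =>
    moll_hasFDerivAt hφ hc hg'i.locallyIntegrable z
  have hfd : Differentiable ℝ f := fun z => by
    obtain ⟨A, hA, _⟩ := hderiv z
    exact hA.differentiableAt
  have hfv : ∀ z ∈ closedBall x t, ∀ v, fderiv ℝ f z v =
      ∫ w, φ (z - w) • (closedBall x s).indicator (fun w => Dg w v) w := by
    intro z hz v
    obtain ⟨A, hA, hAv⟩ := hderiv z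
    rw [hA.fderiv, hAv, moll_weak hD hφ hc hsupp ((hsub z hz).trans hs)
      (fun w hw => indicator_of_mem (hsub z hz hw) g) v]
    congr 1
    funext w
    by_cases hw : w ∈ closedBall x s
    · rw [indicator_of_mem hw]
    · have : φ (z - w) = 0 := by
        by_contra hne
        apply hw
        apply hsub z hz
        have := hsupp (subset_tsupport φ (Function.mem_support.mpr hne))
        rw [mem_closedBall, dist_zero_right] at this
        rwa [mem_closedBall, dist_comm, dist_eq_norm]
      rw [this]; simp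
  -- the mollified map covers
  have hcov : {y | closedBall y η ⊆ g '' closedBall x t} ⊆ f '' closedBall x t := by
    intro y hy
    refine cover ht (hgs.mono (closedBall_subset_closedBall hts.le)) hfd.continuous.continuousOn
      hG hGg ?_ hy
    intro z hz
    have hzs : z ∈ closedBall x s := closedBall_subset_closedBall hts.le hz
    apply moll_close hφ.continuous hc h0 h1' hsupp hg'i
    intro w hw
    have hws := hsub z hz hw
    rw [hg', indicator_of_mem hws, ← dist_eq_norm]
    apply hd w hws z hzs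
    rw [mem_closedBall] at hw
    exact hw.trans (min_le_left _ _)
  -- area inequality
  have harea : volume (f '' closedBall x t) ≤
      ∫⁻ z in closedBall x t, ENNReal.ofReal |(fderiv ℝ f z).det| :=
    addHaar_image_le_lintegral_abs_det_fderiv volume measurableSet_closedBall
      (fun z _ => (hfd z).hasFDerivAt.hasFDerivWithinAt)
  have hDi : ∀ v : ℂ, AEStronglyMeasurable ((closedBall x s).indicator (fun w => Dg w v))
      volume := by
    intro v
    have h2 : IntegrableOn Dg (closedBall x s) := (hD.2.1.mono_set hs).integrableOn_isCompact hK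
    have h3 : AEStronglyMeasurable (fun w => Dg w v) (volume.restrict (closedBall x s)) :=
      (ContinuousLinearMap.apply ℝ ℂ v).continuous.comp_aestronglyMeasurable
        h2.aestronglyMeasurable
    rwa [aestronglyMeasurable_indicator_iff measurableSet_closedBall]
  have key : ∀ v : ℂ, ∫⁻ z in closedBall x t, ‖fderiv ℝ f z v‖ₑ ^ 2 ≤
      ∫⁻ z in closedBall x s, ‖Dg z v‖ₑ ^ 2 := by
    intro v
    calc ∫⁻ z in closedBall x t, ‖fderiv ℝ f z v‖ₑ ^ 2
        = ∫⁻ z in closedBall x t,
          ‖∫ w, φ (z - w) • (closedBall x s).indicator (fun w => Dg w v) w‖ₑ ^ 2 := by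
          apply setLIntegral_congr_fun measurableSet_closedBall
          intro z hz
          simp only [hfv z hz v]
      _ ≤ ∫⁻ z, ‖∫ w, φ (z - w) • (closedBall x s).indicator (fun w => Dg w v) w‖ₑ ^ 2 :=
          setLIntegral_le_lintegral _ _
      _ ≤ ∫⁻ w, ‖(closedBall x s).indicator (fun w => Dg w v) w‖ₑ ^ 2 :=
          lintegral_moll_sq_le hφ.continuous h0 h1 (hDi v)
      _ = ∫⁻ w, (closedBall x s).indicator (fun w => ‖Dg w v‖ₑ ^ 2) w := by
          congr 1
          funext w
          by_cases hw : w ∈ closedBall x s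
          · rw [indicator_of_mem hw, indicator_of_mem hw]
          · rw [indicator_of_notMem hw, indicator_of_notMem hw]; simp
      _ = ∫⁻ z in closedBall x s, ‖Dg z v‖ₑ ^ 2 :=
          lintegral_indicator measurableSet_closedBall _
  have hmeas : Measurable fun z => ‖fderiv ℝ f z 1‖ₑ ^ 2 :=
    (measurable_fderiv_apply_const ℝ f 1).enorm.pow_const 2
  calc 2 * volume {y | closedBall y η ⊆ g '' closedBall x t}
      ≤ 2 * ∫⁻ z in closedBall x t, ENNReal.ofReal |(fderiv ℝ f z).det| := by
        gcongr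
        exact (measure_mono hcov).trans harea
    _ = ∫⁻ z in closedBall x t, 2 * ENNReal.ofReal |(fderiv ℝ f z).det| := by
        rw [lintegral_const_mul' _ _ (by norm_num)]
    _ ≤ ∫⁻ z in closedBall x t, ed (fderiv ℝ f z) := lintegral_mono fun z => two_det_le _
    _ = (∫⁻ z in closedBall x t, ‖fderiv ℝ f z 1‖ₑ ^ 2) +
        ∫⁻ z in closedBall x t, ‖fderiv ℝ f z Complex.I‖ₑ ^ 2 := by
        unfold ed
        rw [lintegral_add_left hmeas]
    _ ≤ (∫⁻ z in closedBall x s, ‖Dg z 1‖ₑ ^ 2) +
        ∫⁻ z in closedBall x s, ‖Dg z Complex.I‖ₑ ^ 2 := add_le_add (key 1) (key Complex.I)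
    _ ≤ ∫⁻ z in closedBall x s, ed (Dg z) := by
        unfold ed
        exact le_lintegral_add _ _

end Pool.Agent.H366R3
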