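import Mathlib
import Pool.Agent.H366R3.Riem

set_option autoImplicit false

open Set Filter Topology Metric
open scoped ComplexConjugate

namespace Pool.Agent.H366R3

/-- complement in the Riemann sphere -/
def sphCompl (D : Set ℂ) : Set (OnePoint ℂ) := ((↑) '' D)ᶜ

/-- connected components of the complement in the Riemann sphere -/
def complComps (D : Set ℂ) : Set (Set (OnePoint ℂ)) :=
  (fun x => connectedComponentIn (sphCompl D) x) '' sphCompl D

lemma comp_eq {C A B : Set (OnePoint ℂ)} (hC : C = A ∪ B) (hA : IsClosed A) (hB : IsClosed B)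
    (hd : Disjoint A B) (hAp : IsPreconnected A) {x : OnePoint ℂ} (hx : x ∈ A) :
    connectedComponentIn C x = A := by
  apply Subset.antisymm
  · intro y hy
    have hs : IsPreconnected (connectedComponentIn C x) := isPreconnected_connectedComponentIn
    have hxC : x ∈ C := by rw [hC]; exact Or.inl hx
    have hsub : connectedComponentIn C x ⊆ A ∪ B := by
      rw [← hC]; exact connectedComponentIn_subset C x
    rcases hsub hy with h | h
    · exact h
    · exfalso
      have := isPreconnected_closed_iff.1 hs A B hA hB hsub ⟨x, mem_connectedComponentIn hxC, hx⟩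
        ⟨y, hy, h⟩
      obtain ⟨z, -, hz1, hz2⟩ := this
      exact disjoint_left.1 hd hz1 hz2
  · apply hAp.subset_connectedComponentIn hx
    rw [hC]; exact subset_union_left

lemma comps_pair {G K : Set ℂ} (hG : IsOpen G) (hK : IsCompact K) (hKG : K ⊆ G)
    (hKp : IsPreconnected K) (hKne : K.Nonempty) (hGc : IsPreconnected (sphCompl G)) :
    complComps (G \ K) = {sphCompl G, (↑) '' K} ∧ sphCompl G ≠ (↑) '' K := by
  have hinf : (OnePoint.infty : OnePoint ℂ) ∈ sphCompl G := by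
    rintro ⟨z, -, hz⟩
    exact OnePoint.coe_ne_infty z hz
  have hAc : IsClosed (sphCompl G) := (OnePoint.isOpen_image_coe.2 hG).isClosed_compl
  have hBc : IsClosed ((↑) '' K : Set (OnePoint ℂ)) :=
    OnePoint.isClosed_image_coe.2 ⟨hK.isClosed, hK⟩
  have hd : Disjoint (sphCompl G) ((↑) '' K) := by
    rw [disjoint_left]
    rintro x hx ⟨z, hz, rfl⟩
    exact hx ⟨z, hKG hz, rfl⟩
  have hU : sphCompl (G \ K) = sphCompl G ∪ (↑) '' K := by
    ext x
    constructor
    · intro hx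
      by_cases h : x ∈ ((↑) '' G : Set (OnePoint ℂ))
      · right
        obtain ⟨z, hz, rfl⟩ := h
        by_contra hcon
        exact hx ⟨z, ⟨hz, fun hzK => hcon ⟨z, hzK, rfl⟩⟩, rfl⟩
      · left; exact h
    · rintro (hx | ⟨z, hz, rfl⟩)
      · rintro ⟨w, hw, rfl⟩
        exact hx ⟨w, hw.1, rfl⟩
      · rintro ⟨w, hw, hwz⟩
        have := OnePoint.coe_injective hwz
        rw [this] at hw
        exact hw.2 hz
  have hBp : IsPreconnected ((↑) '' K : Set (OnePoint ℂ)) :=
    hKp.image _ OnePoint.continuous_coe.continuousOn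
  obtain ⟨k, hk⟩ := hKne
  refine ⟨?_, ?_⟩
  · ext S
    constructor
    · rintro ⟨x, hx, rfl⟩
      simp only
      rw [hU] at hx
      rcases hx with hx | hx
      · left
        exact comp_eq hU hAc hBc hd hGc hx
      · right
        exact comp_eq (hU.trans (union_comm _ _)) hBc hAc hd.symm hBp hx
    · rintro (rfl | rfl)
      · exact ⟨OnePoint.infty, by rw [hU]; exact Or.inl hinf, comp_eq hU hAc hBc hd hGc hinf⟩
      · refine ⟨(k : OnePoint ℂ), by rw [hU]; exact Or.inr ⟨k, hk, rfl⟩, ?_⟩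
        exact comp_eq (hU.trans (union_comm _ _)) hBc hAc hd.symm hBp ⟨k, hk, rfl⟩
  · intro h
    rw [h] at hinf
    obtain ⟨z, -, hz⟩ := hinf
    exact OnePoint.coe_ne_infty z hz

/-- horizontal star-shapedness gives a connected complement in the sphere -/
lemma sphCompl_preconnected {G : Set ℂ}
    (hH : ∀ z ∉ G, ∀ w : ℂ, w.im = z.im → |z.re| ≤ |w.re| → w ∉ G) :
    IsPreconnected (sphCompl G) := by
  apply isPreconnected_of_forall (OnePoint.infty : OnePoint ℂ)
  intro y hy
  induction y using OnePoint.rec with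
  | infty =>
    exact ⟨{OnePoint.infty}, by simpa using hy, rfl, rfl, isPreconnected_singleton⟩
  | coe z =>
    have hz : z ∉ G := fun h => hy ⟨z, h, rfl⟩
    set d : ℝ := if 0 ≤ z.re then 1 else -1 with hd
    let γ : ℝ → ℂ := fun s => z + ((s * d : ℝ) : ℂ)
    have hγc : Continuous γ := by fun_prop
    have hd1 : |d| = 1 := by
      rw [hd]; split_ifs <;> simp
    have hre : ∀ s, 0 ≤ s → |z.re| ≤ |(γ s).re| := by
      intro s hs
      have : (γ s).re = z.re + s * d := by simp [γ]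
      rw [this]
      by_cases h : 0 ≤ z.re
      · rw [hd, if_pos h, abs_of_nonneg h, abs_of_nonneg (by positivity)]
        linarith
      · rw [hd, if_neg h]
        push Not at h
        rw [abs_of_neg h, abs_of_neg (by linarith)]
        linarith
    have him : ∀ s, (γ s).im = z.im := by
      intro s; simp [γ]
    have hmem : ∀ s, 0 ≤ s → γ s ∉ G := fun s hs => hH z hz _ (him s) (hre s hs)
    set R : Set (OnePoint ℂ) := (fun s => ((γ s : ℂ) : OnePoint ℂ)) '' Ici 0 with hR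
    have hRp : IsPreconnected R :=
      isPreconnected_Ici.image _ (OnePoint.continuous_coe.comp hγc).continuousOn
    have htend : Tendsto (fun s => ((γ s : ℂ) : OnePoint ℂ)) atTop (𝓝 OnePoint.infty) := by
      have h1 : Tendsto γ atTop (cocompact ℂ) := by
        rw [← Metric.cobounded_eq_cocompact, ← comap_norm_atTop (E := ℂ), tendsto_comap_iff]
        apply tendsto_atTop_mono (f := fun s : ℝ => s - ‖z‖)
        · intro s
          show s - ‖z‖ ≤ ‖γ s‖
          have h2 : ‖((s * d : ℝ) : ℂ)‖ = |s| := by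
            rw [Complex.norm_real, Real.norm_eq_abs, abs_mul, hd1, mul_one]
          have h3 : ‖((s * d : ℝ) : ℂ)‖ ≤ ‖γ s‖ + ‖z‖ := by
            have : ((s * d : ℝ) : ℂ) = γ s - z := by simp [γ]
            rw [this]
            exact norm_sub_le _ _
          have := le_abs_self s
          linarith
        · exact tendsto_atTop_add_const_right _ _ tendsto_id
      have h2 : Tendsto ((↑) : ℂ → OnePoint ℂ) (cocompact ℂ) (𝓝 OnePoint.infty) := by
        rw [← Filter.coclosedCompact_eq_cocompact, Tendsto, ← OnePoint.nhdsNE_infty_eq]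
        exact nhdsWithin_le_nhds
      exact h2.comp h1
    have hcl : OnePoint.infty ∈ closure R := by
      apply mem_closure_of_tendsto htend
      filter_upwards [eventually_ge_atTop 0] with s hs
      exact ⟨s, hs, rfl⟩
    refine ⟨insert OnePoint.infty R, ?_, mem_insert _ _, ?_, ?_⟩
    · rintro x (rfl | ⟨s, hs, rfl⟩)
      · rintro ⟨w, -, hw⟩
        exact OnePoint.coe_ne_infty w hw
      · rintro ⟨w, hw, hw'⟩
        have := OnePoint.coe_injective hw'
        rw [this] at hw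
        exact hmem s hs hw
    · right
      refine ⟨0, mem_Ici.2 le_rfl, ?_⟩
      simp [γ]
    · apply hRp.subset_closure (subset_insert _ _)
      rintro x (rfl | hx)
      · exact hcl
      · exact subset_closure hx

/-- real segment -/
def seg (a b : ℝ) : Set ℂ := Complex.ofReal '' Icc a b

lemma seg_compact (a b : ℝ) : IsCompact (seg a b) :=
  isCompact_Icc.image Complex.continuous_ofReal

lemma seg_preconnected (a b : ℝ) : IsPreconnected (seg a b) :=
  isPreconnected_Icc.image _ Complex.continuous_ofReal.continuousOn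

lemma ball_H : ∀ z ∉ ball (0 : ℂ) 1, ∀ w : ℂ, w.im = z.im → |z.re| ≤ |w.re| → w ∉ ball (0 : ℂ) 1 := by
  intro z hz w him hre
  rw [mem_ball_zero_iff, not_lt] at hz ⊢
  refine hz.trans ?_
  have h1 : ‖z‖ ^ 2 ≤ ‖w‖ ^ 2 := by
    rw [← Complex.normSq_eq_norm_sq, ← Complex.normSq_eq_norm_sq, Complex.normSq_apply,
      Complex.normSq_apply, him]
    have := sq_le_sq.2 hre
    nlinarith
  exact le_of_sq_le_sq h1 (norm_nonneg _)

lemma U_H (ε : ℝ) : ∀ z ∉ U ε, ∀ w : ℂ, w.im = z.im → |z.re| ≤ |w.re| → w ∉ U ε := by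
  intro z hz w him hre hw
  apply hz
  obtain ⟨h1, h2⟩ := hw
  rw [him] at h1 h2
  refine ⟨h1, ?_⟩
  rcases h2 with h2 | ⟨h2, h3⟩
  · left; linarith
  · right; exact ⟨h2, by linarith⟩

/-- the slit disk -/
def slitDisk (m : ℝ) : Set ℂ := ball 0 1 \ seg 0 m

lemma slitDisk_open (m : ℝ) : IsOpen (slitDisk m) :=
  isOpen_ball.sdiff (seg_compact 0 m).isClosed

lemma slitDisk_connected {m : ℝ} (hm0 : 0 < m) (hm1 : m < 1) : IsConnected (slitDisk m) := by
  set A : Set ℂ := (fun p : ℝ × ℝ => (p.1 : ℂ) * Complex.exp (p.2 * Complex.I)) '' (Ioo m 1 ×ˢ univ)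
    with hA
  have hAp : IsPreconnected A := by
    apply (isPreconnected_Ioo.prod isPreconnected_univ).image
    exact Continuous.continuousOn (by fun_prop)
  have hAmem : ∀ z : ℂ, m < ‖z‖ → ‖z‖ < 1 → z ∈ A := by
    intro z h1 h2
    exact ⟨(‖z‖, z.arg), ⟨⟨h1, h2⟩, mem_univ _⟩, Complex.norm_mul_exp_arg_mul_I z⟩
  have hsegn : ∀ z ∈ seg 0 m, ‖z‖ ≤ m := by
    rintro z ⟨x, hx, rfl⟩
    rw [Complex.norm_real, Real.norm_eq_abs, abs_of_nonneg hx.1]; exact hx.2
  have hAsub : A ⊆ slitDisk m := by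
    rintro z ⟨p, ⟨hp, -⟩, rfl⟩
    have hn : ‖(p.1 : ℂ) * Complex.exp (p.2 * Complex.I)‖ = p.1 := by
      rw [norm_mul, Complex.norm_exp_ofReal_mul_I, mul_one, Complex.norm_real, Real.norm_eq_abs,
        abs_of_pos (hm0.trans hp.1)]
    refine ⟨?_, fun h => ?_⟩
    · rw [mem_ball_zero_iff]
      show ‖(p.1 : ℂ) * Complex.exp (p.2 * Complex.I)‖ < 1
      rw [hn]; exact hp.2
    · have := hsegn _ h
      simp only at this
      rw [hn] at this
      linarith [hp.1]
  set c : ℝ := (m + 1) / 2 with hc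
  have hcm : m < c := by rw [hc]; linarith
  have hc1 : c < 1 := by rw [hc]; linarith
  have hcA : (c : ℂ) ∈ A := by
    apply hAmem <;> rw [Complex.norm_real, Real.norm_eq_abs, abs_of_pos (hm0.trans hcm)]
    · exact hcm
    · exact hc1
  refine ⟨⟨_, hAsub hcA⟩, ?_⟩
  apply isPreconnected_of_forall (c : ℂ)
  intro z hz
  by_cases hzm : m < ‖z‖
  · exact ⟨A, hAsub, hcA, hAmem z hzm (by simpa using hz.1), hAp⟩
  · push Not at hzm
    have hz0 : z ≠ 0 := by
      intro h
      apply hz.2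
      rw [h]
      exact ⟨0, ⟨le_rfl, hm0.le⟩, by simp⟩
    have hzn : 0 < ‖z‖ := norm_pos_iff.2 hz0
    have h1c : 1 ≤ c / ‖z‖ := by
      rw [le_div_iff₀ hzn]; linarith
    set B : Set ℂ := (fun s : ℝ => (s : ℂ) * z) '' Icc 1 (c / ‖z‖) with hB
    have hBp : IsPreconnected B := by
      apply isPreconnected_Icc.image
      exact Continuous.continuousOn (by fun_prop)
    have hend : ((c / ‖z‖ : ℝ) : ℂ) * z ∈ A ∩ B := by
      refine ⟨?_, ⟨c / ‖z‖, ⟨h1c, le_rfl⟩, rfl⟩⟩
      have : ‖((c / ‖z‖ : ℝ) : ℂ) * z‖ = c := by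
        rw [norm_mul, Complex.norm_real, Real.norm_eq_abs, abs_of_nonneg (by positivity)]
        field_simp
      apply hAmem <;> rw [this]
      · exact hcm
      · exact hc1
    refine ⟨A ∪ B, union_subset hAsub ?_, Or.inl hcA, Or.inr ⟨1, ⟨le_rfl, h1c⟩, by simp⟩, ?_⟩
    · rintro w ⟨s, ⟨hs1, hs2⟩, rfl⟩
      refine ⟨?_, ?_⟩
      · rw [mem_ball_zero_iff]
        show ‖(s : ℂ) * z‖ < 1
        rw [norm_mul, Complex.norm_real, Real.norm_eq_abs, abs_of_pos (by linarith)]
        have : s * ‖z‖ ≤ c := by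
          rwa [le_div_iff₀ hzn] at hs2
        linarith
      · rintro ⟨x, ⟨hx0, hxm⟩, hx⟩
        apply hz.2
        have hs0 : (s : ℂ) ≠ 0 := by
          have : s ≠ 0 := by linarith
          exact_mod_cast this
        refine ⟨x / s, ⟨div_nonneg hx0 (by linarith), ?_⟩, ?_⟩
        · rw [div_le_iff₀ (by linarith)]
          nlinarith
        · push_cast
          simp only at hx
          rw [hx, mul_div_cancel_left₀ _ hs0]
    · exact hAp.union _ hend.1 hend.2 hBp

/-- the conformal map takes the slit to the slit -/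
lemma RM.slit {ε : ℝ} (hε : ε ≠ 0) {ψ g : ℂ → ℂ} {r : ℝ} (h : RM ε ψ g r) :
    ψ '' seg 0 (1 / 2) = seg 0 r := by
  have hU : ∀ x ∈ Icc (0 : ℝ) (1 / 2), (x : ℂ) ∈ U ε := by
    intro x hx
    apply U_real
    rw [abs_of_nonneg hx.1]
    linarith [hx.2]
  set ρ : ℝ → ℝ := fun x => (ψ x).re with hρ
  have hρψ : ∀ x ∈ Icc (0 : ℝ) (1 / 2), ψ (x : ℂ) = (ρ x : ℂ) := by
    intro x hx
    have h1 := h.conj hε (hU x hx)
    rw [Complex.conj_ofReal] at h1
    exact (Complex.conj_eq_iff_re.1 h1.symm).symm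
  have hψi : InjOn ψ (U ε) := by
    intro a ha b hb hab
    rw [← h.gψ a ha, ← h.gψ b hb, hab]
  have hρc : ContinuousOn ρ (Icc 0 (1 / 2)) := by
    apply Complex.continuous_re.comp_continuousOn
    exact h.dψ.continuousOn.comp Complex.continuous_ofReal.continuousOn hU
  have hρi : InjOn ρ (Icc 0 (1 / 2)) := by
    intro a ha b hb hab
    have h1 : ψ (a : ℂ) = ψ (b : ℂ) := by rw [hρψ a ha, hρψ b hb, hab]
    have := hψi (hU a ha) (hU b hb) h1
    exact_mod_cast this
  have hρ0 : ρ 0 = 0 := by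
    have : ψ ((0 : ℝ) : ℂ) = 0 := by rw [Complex.ofReal_zero]; exact h.ψ0
    rw [hρ]
    simp only
    rw [this]; rfl
  have hρr : ρ (1 / 2) = r := by
    rw [hρ]
    simp only
    rw [h.ψh, Complex.ofReal_re]
  have h0 : (0 : ℝ) ≤ 1 / 2 := by norm_num
  have hmono : StrictMonoOn ρ (Icc 0 (1 / 2)) := by
    rcases ContinuousOn.strictMonoOn_of_injOn_Icc' h0 hρc hρi with h1 | h1
    · exact h1
    · exfalso
      have := h1 (left_mem_Icc.2 h0) (right_mem_Icc.2 h0) (by norm_num)
      rw [hρ0, hρr] at this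
      linarith [h.r0]
  ext w
  constructor
  · rintro ⟨-, ⟨x, hx, rfl⟩, rfl⟩
    refine ⟨ρ x, ⟨?_, ?_⟩, (hρψ x hx).symm⟩
    · rw [← hρ0]
      exact hmono.monotoneOn (left_mem_Icc.2 h0) hx hx.1
    · rw [← hρr]
      exact hmono.monotoneOn hx (right_mem_Icc.2 h0) hx.2
  · rintro ⟨y, hy, rfl⟩
    have h1 := intermediate_value_Icc h0 hρc
    rw [hρ0, hρr] at h1
    obtain ⟨x, hx, hxy⟩ := h1 hy
    exact ⟨x, ⟨x, hx, rfl⟩, by rw [hρψ x hx, hxy]⟩

lemma RM.bij {ε : ℝ} (hε : ε ≠ 0) {ψ g : ℂ → ℂ} {r : ℝ} (h : RM ε ψ g r) :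
    BijOn g (slitDisk r) (U ε \ seg 0 (1 / 2)) := by
  have hs := h.slit hε
  have hsU : seg 0 (1 / 2) ⊆ U ε := by
    rintro z ⟨x, hx, rfl⟩
    apply U_real
    rw [abs_of_nonneg hx.1]
    linarith [hx.2]
  refine ⟨?_, ?_, ?_⟩
  · intro z hz
    refine ⟨h.mg hz.1, fun hgz => hz.2 ?_⟩
    rw [← hs]
    exact ⟨g z, hgz, h.ψg z hz.1⟩
  · intro z hz w hw hzw
    rw [← h.ψg z hz.1, ← h.ψg w hw.1, hzw]
  · intro w hw
    refine ⟨ψ w, ⟨h.mψ hw.1, fun hψw => hw.2 ?_⟩, h.gψ w hw.1⟩
    rw [← hs] at hψw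
    obtain ⟨v, hv, hvw⟩ := hψw
    rw [← h.gψ w hw.1, ← hvw, h.gψ v (hsU hv)]
    exact hv

end Pool.Agent.H366R3
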