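import Mathlib
import Pool.Agent.H366R3.Energy2

set_option autoImplicit false

open Set Filter Topology MeasureTheory Metric
open scoped ContDiff ENNReal NNReal

namespace Pool.Agent.H366R3

open Pool.Agent.Helper930.WD

lemma open_ball_est {Ω : Set ℂ} {g : ℂ → ℂ} {Dg : ℂ → ℂ →L[ℝ] ℂ} (hD : WeakDerivOn Ω g Dg)
    {x : ℂ} {t s : ℝ} (ht : 0 < t) (hts : t < s) (hs : closedBall x s ⊆ Ω)
    (hg : ContinuousOn g Ω) {G : ℂ → ℂ} (hG : ContinuousOn G (g '' closedBall x t))
    (hGg : ∀ z ∈ closedBall x t, G (g z) = z) (ho : IsOpen (g '' ball x t)) :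
    2 * volume (g '' ball x t) ≤ ∫⁻ z in closedBall x s, ed (Dg z) := by
  let S : ℕ → Set ℂ := fun n => {y | closedBall y (1 / ((n : ℝ) + 1)) ⊆ g '' closedBall x t}
  have hmono : Monotone S := by
    intro m n hmn y hy
    refine (closedBall_subset_closedBall ?_).trans hy
    gcongr
  have hsub : g '' ball x t ⊆ ⋃ n, S n := by
    intro y hy
    obtain ⟨ε, hε, hb⟩ := Metric.isOpen_iff.mp ho y hy
    obtain ⟨n, hn⟩ := exists_nat_one_div_lt hε
    rw [mem_iUnion]
    refine ⟨n, ?_⟩
    exact (closedBall_subset_ball hn).trans (hb.trans (image_mono ball_subset_closedBall))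
  calc 2 * volume (g '' ball x t) ≤ 2 * volume (⋃ n, S n) := by gcongr
    _ = ⨆ n, 2 * volume (S n) := by rw [hmono.measure_iUnion, ENNReal.mul_iSup]
    _ ≤ ∫⁻ z in closedBall x s, ed (Dg z) := by
        apply iSup_le
        intro n
        exact ball_est hD ht hts hs hg hG hGg (by positivity)

/-- area of the image of a closed ball -/
lemma closed_ball_est {Ω : Set ℂ} (hΩ : IsOpen Ω) {g : ℂ → ℂ} {Dg : ℂ → ℂ →L[ℝ] ℂ}
    (hD : WeakDerivOn Ω g Dg) (hg : ContinuousOn g Ω) {G : ℂ → ℂ} {Ω' : Set ℂ}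
    (hG : ContinuousOn G Ω') (hgm : MapsTo g Ω Ω')
    (hGg : ∀ z ∈ Ω, G (g z) = z) (ho : ∀ U ⊆ Ω, IsOpen U → IsOpen (g '' U))
    (hfin : ∫⁻ z in Ω, ed (Dg z) ≠ ⊤) {x : ℂ} {r R : ℝ} (hr : 0 < r) (hrR : r < R)
    (hR : closedBall x R ⊆ Ω) :
    2 * volume (g '' closedBall x r) ≤ ∫⁻ z in closedBall x r, ed (Dg z) := by
  have hstep : ∀ s, r < s → s ≤ R → 2 * volume (g '' closedBall x r) ≤
      ∫⁻ z in closedBall x s, ed (Dg z) := by
    intro s hs hsR
    set t := (r + s) / 2 with htdef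
    have hrt : r < t := by rw [htdef]; linarith
    have hts : t < s := by rw [htdef]; linarith
    have hsΩ : closedBall x s ⊆ Ω := (closedBall_subset_closedBall hsR).trans hR
    have htΩ : closedBall x t ⊆ Ω := (closedBall_subset_closedBall hts.le).trans hsΩ
    have h := open_ball_est hD (hr.trans hrt) hts hsΩ hg
      (hG.mono ((hgm.mono_left htΩ).image_subset)) (fun z hz => hGg z (htΩ hz))
      (ho _ (ball_subset_closedBall.trans htΩ) isOpen_ball)
    refine le_trans ?_ h
    gcongr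
    exact closedBall_subset_ball hrt
  -- let s decrease to r
  set ν : Measure ℂ := (volume.restrict Ω).withDensity (fun z => ed (Dg z)) with hν
  have hνb : ∀ s, s ≤ R → ν (closedBall x s) = ∫⁻ z in closedBall x s, ed (Dg z) := by
    intro s hs
    rw [hν, withDensity_apply _ measurableSet_closedBall, Measure.restrict_restrict
      measurableSet_closedBall,
      inter_eq_left.mpr ((closedBall_subset_closedBall hs).trans hR)]
  have hνfin : ν univ ≠ ⊤ := by
    rw [hν, withDensity_apply _ MeasurableSet.univ, Measure.restrict_univ]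
    exact hfin
  let u : ℕ → ℝ := fun n => r + (R - r) / ((n : ℝ) + 1)
  have hu1 : ∀ n, r < u n := fun n => by
    have : 0 < (R - r) / ((n : ℝ) + 1) := div_pos (by linarith) (by positivity)
    simp only [u]; linarith
  have hu2 : ∀ n, u n ≤ R := fun n => by
    have : (R - r) / ((n : ℝ) + 1) ≤ R - r := div_le_self (by linarith) (by
      have : (0 : ℝ) ≤ n := Nat.cast_nonneg n
      linarith)
    simp only [u]; linarith
  have hanti : Antitone fun n => closedBall x (u n) := by
    intro m n hmn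
    apply closedBall_subset_closedBall
    simp only [u]
    have : 0 ≤ R - r := by linarith
    gcongr
  have hinter : ⋂ n, closedBall x (u n) = closedBall x r := by
    ext z
    simp only [mem_iInter, mem_closedBall]
    constructor
    · intro h
      have h1 : Tendsto (fun n : ℕ => (R - r) / ((n : ℝ) + 1)) atTop (𝓝 0) :=
        (tendsto_const_div_atTop_nhds_zero_nat (R - r)).comp (tendsto_add_atTop_nat 1) |>.congr
          (fun n => by simp)
      have h2 : Tendsto u atTop (𝓝 r) := by simpa [u] using h1.const_add r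
      exact ge_of_tendsto' h2 h
    · intro h n
      exact h.trans (hu1 n).le
  have hlim : Tendsto (fun n => ν (closedBall x (u n))) atTop (𝓝 (ν (⋂ n, closedBall x (u n)))) :=
    tendsto_measure_iInter_atTop (fun n => measurableSet_closedBall.nullMeasurableSet) hanti
      ⟨0, ((measure_mono (subset_univ _)).trans_lt (lt_top_iff_ne_top.mpr hνfin)).ne⟩
  rw [hinter, hνb r hrR.le] at hlim
  apply ge_of_tendsto' hlim
  intro n
  rw [hνb _ (hu2 n)]
  exact hstep _ (hu1 n) (hu2 n)

/-- **Energy lower bound.** The Dirichlet energy of a Sobolev homeomorphism is at least twice the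
area of the image. -/
theorem two_area_le_energy {Ω Ω' : Set ℂ} (hΩ : IsOpen Ω) (hΩ' : IsOpen Ω') {g G : ℂ → ℂ}
    {Dg : ℂ → ℂ →L[ℝ] ℂ} (hD : WeakDerivOn Ω g Dg) (hg : ContinuousOn g Ω)
    (hG : ContinuousOn G Ω') (hgm : MapsTo g Ω Ω') (hGm : MapsTo G Ω' Ω)
    (hGg : ∀ z ∈ Ω, G (g z) = z) (hgG : ∀ w ∈ Ω', g (G w) = w) :
    2 * volume Ω' ≤ ∫⁻ z in Ω, ed (Dg z) := by
  by_cases hfin : ∫⁻ z in Ω, ed (Dg z) = ⊤
  · rw [hfin]; exact le_top
  have himg : ∀ A ⊆ Ω, g '' A = Ω' ∩ G ⁻¹' A := by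
    intro A hA
    ext w
    constructor
    · rintro ⟨z, hz, rfl⟩
      exact ⟨hgm (hA hz), by rw [mem_preimage, hGg z (hA hz)]; exact hz⟩
    · rintro ⟨hw, hw'⟩
      exact ⟨G w, hw', hgG w hw⟩
  have ho : ∀ U ⊆ Ω, IsOpen U → IsOpen (g '' U) := by
    intro U hU hUo
    rw [himg U hU]
    exact hG.isOpen_inter_preimage hΩ' hUo
  have hGae : AEMeasurable G (volume.restrict Ω') := hG.aemeasurable hΩ'.measurableSet
  set μ : Measure ℂ := Measure.map G (volume.restrict Ω') with hμ
  have hμA : ∀ A ⊆ Ω, MeasurableSet A → μ A = volume (g '' A) := by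
    intro A hA hAm
    rw [hμ, Measure.map_apply_of_aemeasurable hGae hAm, himg A hA]
    have h1 : volume.restrict Ω' (G ⁻¹' A) = volume (G ⁻¹' A ∩ Ω') :=
      Measure.restrict_apply₀' hΩ'.measurableSet.nullMeasurableSet
    rw [h1, inter_comm]
  have hμc : μ Ωᶜ = 0 := by
    rw [hμ, Measure.map_apply_of_aemeasurable hGae hΩ.measurableSet.compl]
    have h1 : volume.restrict Ω' (G ⁻¹' Ωᶜ) = volume (G ⁻¹' Ωᶜ ∩ Ω') :=
      Measure.restrict_apply₀' hΩ'.measurableSet.nullMeasurableSet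
    rw [h1]
    have : G ⁻¹' Ωᶜ ∩ Ω' = ∅ := by
      ext w
      simp only [mem_inter_iff, mem_preimage, mem_compl_iff, mem_empty_iff_false, iff_false,
        not_and]
      exact fun h h' => h (hGm h')
    rw [this, measure_empty]
  have hrad : ∀ z ∈ Ω, ∃ R > 0, closedBall z R ⊆ Ω := by
    intro z hz
    exact Metric.nhds_basis_closedBall.mem_iff.mp (hΩ.mem_nhds hz)
  choose! R hR hRΩ using hrad
  obtain ⟨T, r, hTc, hTΩ, hr, hcov, hdisj⟩ := Besicovitch.exists_disjoint_closedBall_covering_ae μ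
    (fun _ => univ) Ω (fun x _ δ hδ => by simp [hδ]) R hR
  have hballΩ : ∀ x ∈ T, closedBall x (r x) ⊆ Ω := fun x hx =>
    (closedBall_subset_closedBall (hr x hx).2.2.le).trans (hRΩ x (hTΩ hx))
  have hm : ∀ x, MeasurableSet (closedBall x (r x)) := fun x => measurableSet_closedBall
  have hall : g '' Ω = Ω' := by
    rw [himg Ω subset_rfl]
    exact inter_eq_left.mpr hGm
  calc 2 * volume Ω' = 2 * μ Ω := by rw [hμA Ω subset_rfl hΩ.measurableSet, hall]
    _ ≤ 2 * (μ (Ω \ ⋃ x ∈ T, closedBall x (r x)) + μ (⋃ x ∈ T, closedBall x (r x))) := by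
        gcongr
        refine (measure_mono ?_).trans (measure_union_le _ _)
        intro z hz
        by_cases h : z ∈ ⋃ x ∈ T, closedBall x (r x)
        · exact Or.inr h
        · exact Or.inl ⟨hz, h⟩
    _ = 2 * μ (⋃ x ∈ T, closedBall x (r x)) := by rw [hcov, zero_add]
    _ = 2 * ∑' x : T, μ (closedBall x (r x)) := by
        rw [measure_biUnion hTc hdisj (fun x _ => hm x)]
    _ = ∑' x : T, 2 * μ (closedBall x (r x)) := by rw [ENNReal.tsum_mul_left]
    _ ≤ ∑' x : T, ∫⁻ z in closedBall (x : ℂ) (r x), ed (Dg z) := by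
        apply ENNReal.tsum_le_tsum
        intro x
        rw [hμA _ (hballΩ x x.2) (hm x)]
        exact closed_ball_est hΩ hD hg hG hgm hGg ho hfin (hr x x.2).2.1 (hr x x.2).2.2
          (hRΩ x (hTΩ x.2))
    _ = ∫⁻ z in ⋃ x ∈ T, closedBall x (r x), ed (Dg z) := by
        rw [lintegral_biUnion hTc (fun x _ => hm x) hdisj]
    _ ≤ ∫⁻ z in Ω, ed (Dg z) := by
        apply lintegral_mono_set
        exact iUnion₂_subset hballΩ

end Pool.Agent.H366R3
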