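import Mathlib
import Pool.Agent.H366R3.Energy3
import Pool.Agent.Helper930.LipWD

set_option autoImplicit false

open Set Filter Topology MeasureTheory Metric
open scoped ContDiff ENNReal NNReal

namespace Pool.Agent.H366R3

open Pool.Agent.Helper930.WD

/-- a holomorphic function has its classical differential as weak differential -/
lemma weakDeriv_holo {Ω : Set ℂ} (hΩ : IsOpen Ω) {h : ℂ → ℂ} (hh : DifferentiableOn ℂ h Ω) :
    WeakDerivOn Ω h (fderiv ℝ h) := by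
  apply weakDeriv_of_lip hΩ
  intro K hK hKc
  obtain ⟨L, hL, hKL, hLΩ⟩ := exists_compact_between hKc hΩ hK
  have hloc : LocallyLipschitzOn Ω h := by
    intro x hx
    have h1 : ContDiffAt ℂ 1 h x := (hh.analyticAt (hΩ.mem_nhds hx)).contDiffAt
    obtain ⟨C, t, ht, hC⟩ := h1.exists_lipschitzOnWith
    exact ⟨C, t, mem_nhdsWithin_of_mem_nhds ht, hC⟩
  obtain ⟨C, hC⟩ := (hloc.mono hLΩ).exists_lipschitzOnWith_of_compact hL
  exact ⟨interior L, isOpen_interior, hKL, C, hC.mono interior_subset⟩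

lemma fderiv_holo {Ω : Set ℂ} (hΩ : IsOpen Ω) {h : ℂ → ℂ} (hh : DifferentiableOn ℂ h Ω) {z : ℂ}
    (hz : z ∈ Ω) (v : ℂ) : fderiv ℝ h z v = v * deriv h z := by
  have h1 : DifferentiableAt ℂ h z := hh.differentiableAt (hΩ.mem_nhds hz)
  have h2 := h1.hasDerivAt.hasFDerivAt.restrictScalars ℝ
  rw [h2.fderiv]
  simp

lemma ed_holo {Ω : Set ℂ} (hΩ : IsOpen Ω) {h : ℂ → ℂ} (hh : DifferentiableOn ℂ h Ω) {z : ℂ}
    (hz : z ∈ Ω) : ed (fderiv ℝ h z) = 2 * ENNReal.ofReal |(fderiv ℝ h z).det| := by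
  have h1 := fderiv_holo hΩ hh hz 1
  have hI := fderiv_holo hΩ hh hz Complex.I
  rw [det_formula, ed, h1, hI]
  set a := deriv h z
  have e1 : ((1 : ℂ) * a).re * (Complex.I * a).im - (1 * a).im * (Complex.I * a).re = ‖a‖ ^ 2 := by
    rw [← Complex.normSq_eq_norm_sq, Complex.normSq_apply]
    simp
  rw [e1, abs_of_nonneg (by positivity)]
  have e2 : ‖(1 : ℂ) * a‖ₑ = ENNReal.ofReal ‖a‖ := by simp
  have e3 : ‖Complex.I * a‖ₑ = ENNReal.ofReal ‖a‖ := by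
    rw [← ofReal_norm, norm_mul, Complex.norm_I, one_mul]
  rw [e2, e3, ENNReal.ofReal_pow (norm_nonneg _)]
  ring

/-- energy of a conformal map -/
theorem energy_holo {Ω : Set ℂ} (hΩ : IsOpen Ω) {h : ℂ → ℂ} (hh : DifferentiableOn ℂ h Ω)
    (hi : InjOn h Ω) : ∫⁻ z in Ω, ed (fderiv ℝ h z) = 2 * volume (h '' Ω) := by
  have h1 : ∫⁻ z in Ω, ed (fderiv ℝ h z) =
      ∫⁻ z in Ω, 2 * ENNReal.ofReal |(fderiv ℝ h z).det| := by
    apply setLIntegral_congr_fun hΩ.measurableSet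
    intro z hz
    exact ed_holo hΩ hh hz
  rw [h1, lintegral_const_mul' _ _ (by norm_num)]
  congr 1
  apply lintegral_abs_det_fderiv_eq_addHaar_image volume hΩ.measurableSet _ hi
  intro x hx
  exact ((hh.differentiableAt (hΩ.mem_nhds hx)).restrictScalars ℝ).hasFDerivAt.hasFDerivWithinAt

lemma nnnorm_le_ed (A : ℂ →L[ℝ] ℂ) : ‖A‖ₑ ^ 2 ≤ 2 * ed A := by
  have h1 : ‖A‖ ≤ ‖A 1‖ + ‖A Complex.I‖ := by
    apply ContinuousLinearMap.opNorm_le_bound _ (by positivity)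
    intro z
    have hz : z = z.re • (1 : ℂ) + z.im • Complex.I := by
      simp [Complex.re_add_im]
    calc ‖A z‖ = ‖A (z.re • (1 : ℂ) + z.im • Complex.I)‖ := by rw [← hz]
      _ = ‖z.re • A 1 + z.im • A Complex.I‖ := by rw [map_add, map_smul, map_smul]
      _ ≤ |z.re| * ‖A 1‖ + |z.im| * ‖A Complex.I‖ := by
          refine (norm_add_le _ _).trans ?_
          rw [norm_smul, norm_smul, Real.norm_eq_abs, Real.norm_eq_abs]
      _ ≤ ‖z‖ * ‖A 1‖ + ‖z‖ * ‖A Complex.I‖ := by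
          gcongr
          · exact Complex.abs_re_le_norm z
          · exact Complex.abs_im_le_norm z
      _ = _ := by ring
  have h2 : ‖A‖ ^ 2 ≤ 2 * (‖A 1‖ ^ 2 + ‖A Complex.I‖ ^ 2) := by
    have h3 : ‖A‖ ^ 2 ≤ (‖A 1‖ + ‖A Complex.I‖) ^ 2 := by gcongr
    nlinarith [sq_nonneg (‖A 1‖ - ‖A Complex.I‖)]
  rw [ed]
  have e1 : ∀ x : ℂ, ‖x‖ₑ ^ 2 = ENNReal.ofReal (‖x‖ ^ 2) := by
    intro x
    rw [ENNReal.ofReal_pow (norm_nonneg _), ofReal_norm]
  have e2 : ‖A‖ₑ ^ 2 = ENNReal.ofReal (‖A‖ ^ 2) := by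
    rw [ENNReal.ofReal_pow (norm_nonneg _), ofReal_norm]
  rw [e1, e1, e2, ← ENNReal.ofReal_add (by positivity) (by positivity)]
  rw [show (2 : ℝ≥0∞) = ENNReal.ofReal 2 by simp, ← ENNReal.ofReal_mul (by norm_num)]
  exact ENNReal.ofReal_le_ofReal h2

/-- the differential of a conformal map onto a set of finite area is square integrable -/
lemma memLp_holo {Ω : Set ℂ} (hΩ : IsOpen Ω) {h : ℂ → ℂ} (hh : DifferentiableOn ℂ h Ω)
    (hi : InjOn h Ω) (hfin : volume (h '' Ω) ≠ ⊤) :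
    MemLp (fderiv ℝ h) 2 (volume.restrict Ω) := by
  refine ⟨(weakDeriv_holo hΩ hh).2.1.aestronglyMeasurable, ?_⟩
  rw [eLpNorm_lt_top_iff_lintegral_rpow_enorm_lt_top (by norm_num) (by norm_num)]
  have h1 : ∫⁻ z in Ω, ‖fderiv ℝ h z‖ₑ ^ (2 : ℝ≥0∞).toReal ≤
      2 * ∫⁻ z in Ω, ed (fderiv ℝ h z) := by
    rw [← lintegral_const_mul' _ _ (by norm_num)]
    apply lintegral_mono
    intro z
    have := nnnorm_le_ed (fderiv ℝ h z)
    simpa using this
  refine lt_of_le_of_lt h1 ?_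
  rw [energy_holo hΩ hh hi]
  exact ENNReal.mul_lt_top (by norm_num) (ENNReal.mul_lt_top (by norm_num) hfin.lt_top)

lemma memLp_bdd {Ω : Set ℂ} (hΩ : IsOpen Ω) (hfinΩ : volume Ω ≠ ⊤) {h : ℂ → ℂ}
    (hc : ContinuousOn h Ω) {C : ℝ} (hb : ∀ z ∈ Ω, ‖h z‖ ≤ C) :
    MemLp h 2 (volume.restrict Ω) := by
  have : IsFiniteMeasure (volume.restrict Ω : Measure ℂ) := ⟨by
    rw [Measure.restrict_apply_univ]; exact hfinΩ.lt_top⟩
  apply MemLp.of_bound (hc.aestronglyMeasurable hΩ.measurableSet) C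
  rw [ae_restrict_iff' hΩ.measurableSet]
  exact Eventually.of_forall hb

end Pool.Agent.H366R3
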