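import Mathlib
import Pool.Agent.H366R3.Cont

set_option autoImplicit false

open Set Filter Topology Metric
open scoped ComplexConjugate

namespace Pool.Agent.H366R3

/-- the extremal value for the strip of half-width one -/
noncomputable def kap : ℝ := ‖T 1 ((1 / 2 : ℝ) : ℂ)‖

lemma half_strip : |(((1 / 2 : ℝ) : ℂ)).re| < 1 := by
  rw [Complex.ofReal_re, abs_of_pos] <;> norm_num

lemma kap_lt : kap < 1 := T_norm one_pos half_strip

/-- limits along parameters where the sine tends to minus one -/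
lemma limit_low {ι : Type*} (l : Ultrafilter ι) {τ : ι → ℝ} (hτ : Tendsto τ l atTop)
    (hs : Tendsto (fun i => Real.sin (τ i)) l (𝓝 (-1))) {R : ℝ}
    (hR : Tendsto (fun i => rr (τ i)) l (𝓝 R)) : kap ≤ R := by
  have hR0 : 0 ≤ R := ge_of_tendsto' hR fun i => (rm (τ i)).r0.le
  rcases le_or_gt 1 R with h1R | hR1
  · exact kap_lt.le.trans h1R
  have hRlt : |R| < 1 := by rw [abs_of_nonneg hR0]; exact hR1
  obtain ⟨g, hg1, hg2, hg3, hg4, hg5⟩ := low_limit l (k := fun i => gg (τ i))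
    (ρ := fun i => rr (τ i)) (fun i => (rm (τ i)).dg) (fun i w hw => U_strip3 ((rm (τ i)).mg hw))
    (fun i => (rm (τ i)).g0) (fun i => (rm (τ i)).gr)
    (fun i => by rw [abs_of_pos (rm (τ i)).r0]; exact (rm (τ i)).r1) hR hRlt
  have hL : ∀ w ∈ g '' ball 0 1, w.im ≠ 0 → |w.re| ≤ 1 := by
    rintro w ⟨ζ, hζ, rfl⟩ hne
    have h1 := hg2 ζ hζ
    have h2 : ∀ i, gg (τ i) ζ ∈ U (ee (τ i)) := fun i => (rm (τ i)).mg hζ
    have him : Tendsto (fun i => (gg (τ i) ζ).im) l (𝓝 (g ζ).im) :=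
      (Complex.continuous_im.tendsto _).comp h1
    have hre : Tendsto (fun i => (gg (τ i) ζ).re) l (𝓝 (g ζ).re) :=
      (Complex.continuous_re.tendsto _).comp h1
    have hW := W_tendsto hne hτ hs him
    have h3 := le_of_tendsto_of_tendsto hre.abs hW (Eventually.of_forall fun i => U_re_le (h2 i))
    linarith
  have hstrip : ∀ w ∈ g '' ball 0 1, |w.re| < 1 := by
    intro w hw
    obtain ⟨δ, hδ, hm⟩ := move_out hg5 hw
    by_cases him : w.im = 0
    · have h1 := hm δ (abs_of_pos hδ).le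
      have h2 := hL _ h1.1 (by
        show w.im + δ ≠ 0
        rw [him, zero_add]; exact hδ.ne')
      exact h1.2.trans_le h2
    · have h1 := hm 0 (by rw [abs_zero]; exact hδ.le)
      have h2 := hL _ h1.1 (by
        show w.im + 0 ≠ 0
        rw [add_zero]; exact him)
      exact h1.2.trans_le h2
  have hRb : (R : ℂ) ∈ ball (0 : ℂ) 1 := by
    rw [mem_ball_zero_iff, Complex.norm_real, Real.norm_eq_abs]; exact hRlt
  have := schwarz_le (F := fun w => T 1 (g w))
    ((T_diffOn one_pos).comp hg1 (fun w hw => hstrip _ (mem_image_of_mem g hw)))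
    (fun w hw => by
      rw [mem_closedBall_zero_iff]
      exact (T_norm one_pos (hstrip _ (mem_image_of_mem g hw))).le)
    (by show T 1 (g 0) = 0; rw [hg3, T_zero]) hRb
  rw [hg4, Complex.norm_real, Real.norm_eq_abs, abs_of_nonneg hR0] at this
  exact this

/-- limits along parameters where the sine tends to one -/
lemma limit_high {ι : Type*} (l : Ultrafilter ι) {τ : ι → ℝ} (hτ : Tendsto τ l atTop)
    (hs : Tendsto (fun i => Real.sin (τ i)) l (𝓝 1)) {R : ℝ}
    (hR : Tendsto (fun i => rr (τ i)) l (𝓝 R)) : R < kap := by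
  have hR0 : 0 ≤ R := ge_of_tendsto' hR fun i => (rm (τ i)).r0.le
  have he0 : Tendsto (fun i => ee (τ i)) l (𝓝 0) := ee_tendsto.comp hτ
  set V : Set ℂ := {z | |z.re| < 3 ∧ (|z.re| < 1 ∨ z.im ≠ 0)} with hV
  have hca : Continuous fun z : ℂ => |z.re| := Complex.continuous_re.abs
  have hVo : IsOpen V := by
    apply IsOpen.inter (s := {z : ℂ | |z.re| < 3}) (t := {z : ℂ | |z.re| < 1 ∨ z.im ≠ 0})
    · exact isOpen_lt hca continuous_const
    · apply IsOpen.union (s₁ := {z : ℂ | |z.re| < 1}) (s₂ := {z : ℂ | z.im ≠ 0})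
      · exact isOpen_lt hca continuous_const
      · exact isOpen_ne_fun Complex.continuous_im continuous_const
  obtain ⟨f, hf1, hf2, hf3⟩ := up_limit l (V := V) hVo
    (D := fun i => U (ee (τ i))) (F := fun i => psi (τ i)) (fun i => (rm (τ i)).dψ)
    (fun i z hz => ball_subset_closedBall ((rm (τ i)).mψ hz))
    (by
      rintro z ⟨hz3, hz⟩
      have him : Tendsto (fun p : ι × ℂ => p.2.im) ((l : Filter ι) ×ˢ 𝓝 z) (𝓝 z.im) :=
        (Complex.continuous_im.tendsto z).comp tendsto_snd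
      have hre : Tendsto (fun p : ι × ℂ => p.2.re) ((l : Filter ι) ×ˢ 𝓝 z) (𝓝 z.re) :=
        (Complex.continuous_re.tendsto z).comp tendsto_snd
      have c1 : ∀ᶠ p : ι × ℂ in (l : Filter ι) ×ˢ 𝓝 z, |ee (τ p.1) * p.2.im| < 1 / 2 := by
        have h1 : Tendsto (fun p : ι × ℂ => ee (τ p.1) * p.2.im) ((l : Filter ι) ×ˢ 𝓝 z)
            (𝓝 (0 * z.im)) := (he0.comp tendsto_fst).mul him
        have h2 := h1.abs
        rw [zero_mul, abs_zero] at h2
        exact h2.eventually (gt_mem_nhds (by norm_num))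
      rcases hz with hz | hz
      · have c2 : ∀ᶠ p : ι × ℂ in (l : Filter ι) ×ˢ 𝓝 z, |p.2.re| < 1 :=
          hre.abs.eventually (gt_mem_nhds hz)
        filter_upwards [c1, c2] with p hp1 hp2
        exact ⟨hp1, Or.inl hp2⟩
      · have hW := W_tendsto (m := (l : Filter ι) ×ˢ 𝓝 z) (τ := fun p => τ p.1)
          (y := fun p => p.2.im) hz (hτ.comp tendsto_fst) (hs.comp tendsto_fst) him
        have c2 : ∀ᶠ p : ι × ℂ in (l : Filter ι) ×ˢ 𝓝 z, |p.2.re| < W (ee (τ p.1) * p.2.im) :=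
          hre.abs.eventually_lt hW (by linarith)
        have c3 : ∀ᶠ p : ι × ℂ in (l : Filter ι) ×ˢ 𝓝 z, p.2.im ≠ 0 := him.eventually_ne hz
        filter_upwards [c1, c2, c3] with p hp1 hp2 hp3
        exact ⟨hp1, Or.inr ⟨hp3, hp2⟩⟩)
  have hSV : ∀ z : ℂ, |z.re| < 1 → z ∈ V := fun z hz => ⟨by linarith, Or.inl hz⟩
  have hf0 : f 0 = 0 := by
    have h1 := hf3 0 (hSV 0 (by simp)) (fun _ => 0) tendsto_const_nhds
    have h2 : (fun i => psi (τ i) ((fun _ => 0) i)) = fun _ => (0 : ℂ) := by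
      funext i
      exact (rm (τ i)).ψ0
    rw [h2] at h1
    exact tendsto_nhds_unique h1 tendsto_const_nhds
  have hfR : f ((1 / 2 : ℝ) : ℂ) = R := by
    have h1 := hf3 _ (hSV _ half_strip) (fun _ => ((1 / 2 : ℝ) : ℂ)) tendsto_const_nhds
    have h2 : (fun i => psi (τ i) ((fun _ => ((1 / 2 : ℝ) : ℂ)) i)) = fun i => (rr (τ i) : ℂ) := by
      funext i
      exact (rm (τ i)).ψh
    rw [h2] at h1
    exact tendsto_nhds_unique h1 ((Complex.continuous_ofReal.tendsto R).comp hR)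
  -- transport to the disk
  have hFd : DifferentiableOn ℂ (fun w => f (Ti 1 w)) (ball 0 1) :=
    hf1.comp (Ti_diffOn 1) (fun w hw => hSV _ (Ti_re one_pos (by simpa using hw)))
  have hFm : MapsTo (fun w => f (Ti 1 w)) (ball 0 1) (closedBall 0 1) :=
    fun w hw => hf2 (hSV _ (Ti_re one_pos (by simpa using hw)))
  have hF0 : f (Ti 1 0) = 0 := by rw [Ti_zero, hf0]
  have hq : T 1 ((1 / 2 : ℝ) : ℂ) ∈ ball (0 : ℂ) 1 := by
    rw [mem_ball_zero_iff]; exact kap_lt
  have hFq : f (Ti 1 (T 1 ((1 / 2 : ℝ) : ℂ))) = R := by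
    rw [Ti_T one_pos half_strip, hfR]
  have hRk : R ≤ kap := by
    have := schwarz_le hFd hFm hF0 hq
    rw [hFq, Complex.norm_real, Real.norm_eq_abs, abs_of_nonneg hR0] at this
    exact this
  refine lt_of_le_of_ne hRk fun heq => ?_
  have hq0 : T 1 ((1 / 2 : ℝ) : ℂ) ≠ 0 := by
    intro h0
    have h1 := Ti_T one_pos half_strip
    rw [h0, Ti_zero] at h1
    norm_num at h1
  obtain ⟨c, hc, hE⟩ := schwarz_eq hFd hFm hF0 hq hq0
    (by rw [hFq, Complex.norm_real, Real.norm_eq_abs, abs_of_nonneg hR0, heq]; rfl)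
  have hfT : ∀ z : ℂ, |z.re| < 1 → f z = c * T 1 z := by
    intro z hz
    have := hE (T 1 z) (by rw [mem_ball_zero_iff]; exact T_norm one_pos hz)
    rw [Ti_T one_pos hz] at this
    exact this
  -- identity theorem on the upper half of the wide strip
  set P : Set ℂ := {z | |z.re| < 3 ∧ 0 < z.im} with hP
  have hPo : IsOpen P := by
    apply IsOpen.inter (s := {z : ℂ | |z.re| < 3}) (t := {z : ℂ | 0 < z.im})
    · exact isOpen_lt hca continuous_const
    · exact isOpen_lt continuous_const Complex.continuous_im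
  have hPc : Convex ℝ P := by
    have h1 : Convex ℝ {z : ℂ | |z.re| < 3} := by
      have : {z : ℂ | |z.re| < 3} = Complex.reLm ⁻¹' (Ioo (-3) 3) := by
        ext z
        simp [abs_lt]
      rw [this]
      exact (convex_Ioo (-3 : ℝ) 3).linear_preimage Complex.reLm
    have h2 : Convex ℝ {z : ℂ | 0 < z.im} := by
      have : {z : ℂ | 0 < z.im} = Complex.imLm ⁻¹' (Ioi 0) := by
        ext z
        simp
      rw [this]
      exact (convex_Ioi (0 : ℝ)).linear_preimage Complex.imLm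
    exact h1.inter h2
  have hPV : P ⊆ V := fun z hz => ⟨hz.1, Or.inr hz.2.ne'⟩
  have ha1 : AnalyticOnNhd ℂ f P := (hf1.mono hPV).analyticOnNhd hPo
  have ha2 : AnalyticOnNhd ℂ (fun z => c * T 1 z) P := by
    apply DifferentiableOn.analyticOnNhd _ hPo
    intro z hz
    exact ((T_diffAt (ex_im_pos one_pos hz.2)).const_mul c).differentiableWithinAt
  have hI : Complex.I ∈ P := ⟨by simp, by simp⟩
  have hev : f =ᶠ[𝓝 Complex.I] fun z => c * T 1 z := by
    have : ContinuousAt (fun z : ℂ => |z.re|) Complex.I := by fun_prop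
    have h1 : ∀ᶠ z : ℂ in 𝓝 Complex.I, |z.re| < 1 :=
      this.eventually_lt continuousAt_const (by simp)
    filter_upwards [h1] with z hz
    exact hfT z hz
  have hEq := ha1.eqOn_of_preconnected_of_eventuallyEq ha2 hPc.isPreconnected hI hev
  have h2I : (2 + Complex.I) ∈ P := by
    refine ⟨?_, ?_⟩
    · simp; norm_num
    · simp
  have h1 := hEq h2I
  have h2 := hf2 (hPV h2I)
  rw [mem_closedBall_zero_iff, h1, norm_mul, hc, one_mul] at h2
  linarith [T_two_I.1]

lemma seq_low {τ : ℕ → ℝ} (hτ : Tendsto τ atTop atTop)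
    (hs : ∀ n, Real.sin (τ n) = -1) {m : ℝ} (hm : m < kap) : ∀ᶠ n in atTop, m < rr (τ n) := by
  by_contra hcon
  rw [not_eventually] at hcon
  obtain ⟨u, hu1, hu2⟩ := Filter.extraction_of_frequently_atTop hcon
  obtain ⟨R, -, hR⟩ := rr_limit (Ultrafilter.of (atTop : Filter ℕ)) (fun k => τ (u k))
  have hle : ((Ultrafilter.of (atTop : Filter ℕ) : Ultrafilter ℕ) : Filter ℕ) ≤ atTop :=
    Ultrafilter.of_le _
  have h1 : kap ≤ R := limit_low _ ((hτ.comp hu1.tendsto_atTop).mono_left hle)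
    (by
      have : (fun k => Real.sin ((τ ∘ u) k)) = fun _ => (-1 : ℝ) := funext fun k => hs _
      rw [this]; exact tendsto_const_nhds) hR
  have h2 : R ≤ m := le_of_tendsto' hR fun k => not_lt.1 (hu2 k)
  linarith

lemma seq_high {τ : ℕ → ℝ} (hτ : Tendsto τ atTop atTop)
    (hs : ∀ n, Real.sin (τ n) = 1) : ∃ m < kap, ∀ᶠ n in atTop, rr (τ n) < m := by
  by_contra hcon
  push Not at hcon
  have hex : ∀ k : ℕ, ∃ n, k ≤ n ∧ kap - 1 / ((k : ℝ) + 1) ≤ rr (τ n) := by
    intro k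
    have h1 := hcon (kap - 1 / ((k : ℝ) + 1)) (by
      have : (0 : ℝ) < 1 / ((k : ℝ) + 1) := by positivity
      linarith)
    by_contra h2
    push Not at h2
    obtain ⟨n, hn1, hn2⟩ := (h1.and_eventually (eventually_ge_atTop k)).exists
    exact absurd (h2 n hn2) (not_lt.2 hn1)
  choose u hu1 hu2 using hex
  have hu : Tendsto u atTop atTop := tendsto_atTop_mono hu1 tendsto_id
  obtain ⟨R, -, hR⟩ := rr_limit (Ultrafilter.of (atTop : Filter ℕ)) (fun k => τ (u k))
  have hle : ((Ultrafilter.of (atTop : Filter ℕ) : Ultrafilter ℕ) : Filter ℕ) ≤ atTop :=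
    Ultrafilter.of_le _
  have h1 : R < kap := limit_high _ ((hτ.comp hu).mono_left hle)
    (by
      have : (fun k => Real.sin ((τ ∘ u) k)) = fun _ => (1 : ℝ) := funext fun k => hs _
      rw [this]; exact tendsto_const_nhds) hR
  have h3 : Tendsto (fun k : ℕ => kap - 1 / ((k : ℝ) + 1)) atTop (𝓝 (kap - 0)) :=
    tendsto_one_div_add_atTop_nhds_zero_nat.const_sub kap
  rw [sub_zero] at h3
  have h2 : kap ≤ R := le_of_tendsto_of_tendsto' (h3.mono_left hle) hR hu2
  linarith

/-- a fixed value of the modulus is attained for arbitrarily strong compressions -/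
theorem exists_modulus : ∃ m : ℝ, 0 < m ∧ m < 1 ∧ ∀ N : ℝ, ∃ t ≥ N, rr t = m := by
  have hpi := Real.pi_pos
  have ht1 : Tendsto (fun n : ℕ => 3 * Real.pi / 2 + n * (2 * Real.pi)) atTop atTop := by
    apply tendsto_atTop_add_const_left
    exact tendsto_natCast_atTop_atTop.atTop_mul_const (by positivity)
  have ht2 : Tendsto (fun n : ℕ => Real.pi / 2 + n * (2 * Real.pi)) atTop atTop := by
    apply tendsto_atTop_add_const_left
    exact tendsto_natCast_atTop_atTop.atTop_mul_const (by positivity)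
  obtain ⟨m, hm, hhigh⟩ := seq_high ht2 (by
    intro n
    rw [Real.sin_add_nat_mul_two_pi, Real.sin_pi_div_two])
  have hlow := seq_low ht1 (by
    intro n
    rw [Real.sin_add_nat_mul_two_pi, show 3 * Real.pi / 2 = Real.pi / 2 + Real.pi by ring,
      Real.sin_add_pi, Real.sin_pi_div_two]) hm
  have hatt : ∀ N : ℝ, ∃ t ≥ N, rr t = m := by
    intro N
    obtain ⟨n1, hn1, hn1'⟩ := (hlow.and (ht1.eventually_ge_atTop N)).exists
    obtain ⟨n2, hn2, hn2'⟩ := (hhigh.and (ht2.eventually_ge_atTop N)).exists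
    have hmem : m ∈ uIcc (rr (3 * Real.pi / 2 + n1 * (2 * Real.pi)))
        (rr (Real.pi / 2 + n2 * (2 * Real.pi))) := by
      rw [mem_uIcc]; right; exact ⟨hn2.le, hn1.le⟩
    obtain ⟨t, ht, ht'⟩ := intermediate_value_uIcc (rr_continuous.continuousOn) hmem
    refine ⟨t, ?_, ht'⟩
    rw [mem_uIcc] at ht
    rcases ht with ht | ht
    · exact hn1'.trans ht.1
    · exact hn2'.trans ht.1
  obtain ⟨t, -, ht⟩ := hatt 0
  exact ⟨m, ht ▸ (rm t).r0, ht ▸ (rm t).r1, hatt⟩

end Pool.Agent.H366R3
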